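import Pool.Agent.Helper591.TC.Base

/-! # PSys instance for bounded measurable functions (helper306, MP_e53872_an) -/

open scoped ComplexConjugate InnerProductSpace
open MeasureTheory Filter Topology

set_option autoImplicit false
set_option linter.unusedSectionVars false
set_option linter.style.haveILetI false

namespace Pool.TC.Asm

/-- bounded measurable functions -/
def BM (X : Type) [MeasurableSpace X] : StarSubalgebra ℂ (X → ℂ) where
  carrier := {f | Measurable f ∧ ∃ C : ℝ, ∀ x, ‖f x‖ ≤ C}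
  mul_mem' := by
    rintro f g ⟨hf, C, hC⟩ ⟨hg, D, hD⟩
    refine ⟨hf.mul hg, C * D, fun x => ?_⟩
    show ‖f x * g x‖ ≤ C * D
    rw [norm_mul]
    exact mul_le_mul (hC x) (hD x) (norm_nonneg _) ((norm_nonneg _).trans (hC x))
  add_mem' := by
    rintro f g ⟨hf, C, hC⟩ ⟨hg, D, hD⟩
    exact ⟨hf.add hg, C + D, fun x => (norm_add_le _ _).trans (add_le_add (hC x) (hD x))⟩
  algebraMap_mem' := by
    intro r
    exact ⟨measurable_const, ‖r‖, fun x => le_refl _⟩
  star_mem' := by
    rintro f ⟨hf, C, hC⟩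
    refine ⟨?_, C, fun x => ?_⟩
    · exact (Complex.continuous_conj.measurable).comp hf
    · show ‖star (f x)‖ ≤ C
      rw [norm_star]
      exact hC x

section
variable {X : Type} [MeasurableSpace X]

theorem perm_meas (T : X ≃ᵐ X) (k : ℤ) :
    Measurable ((T.toEquiv : Equiv.Perm X) ^ k) := by
  have hn : ∀ (S : X ≃ᵐ X) (n : ℕ), Measurable ((S.toEquiv : Equiv.Perm X) ^ n) := by
    intro S n
    induction n with
    | zero => exact measurable_id
    | succ n ih =>
      rw [pow_succ]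
      exact ih.comp S.measurable
  obtain ⟨n, rfl | rfl⟩ := k.eq_nat_or_neg
  · rw [zpow_natCast]
    exact hn T n
  · rw [zpow_neg, zpow_natCast, ← inv_pow]
    exact hn T.symm n

theorem perm_mp {μ : Measure X} (T : X ≃ᵐ X) (hT : MeasurePreserving T μ μ) (k : ℤ) :
    MeasurePreserving ((T.toEquiv : Equiv.Perm X) ^ k) μ μ := by
  have hn : ∀ (S : X ≃ᵐ X), MeasurePreserving S μ μ → ∀ (n : ℕ),
      MeasurePreserving ((S.toEquiv : Equiv.Perm X) ^ n) μ μ := by
    intro S hS n
    induction n with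
    | zero => exact MeasurePreserving.id μ
    | succ n ih =>
      rw [pow_succ]
      exact ih.comp hS
  obtain ⟨n, rfl | rfl⟩ := k.eq_nat_or_neg
  · rw [zpow_natCast]
    exact hn T hT n
  · rw [zpow_neg, zpow_natCast, ← inv_pow]
    exact hn T.symm (hT.symm T) n

/-- composition with a power of `T` -/
def tauBM (T : X ≃ᵐ X) (n : ℤ) : BM X →⋆ₐ[ℂ] BM X where
  toFun f := ⟨fun x => f.1 (((T.toEquiv : Equiv.Perm X) ^ n) x),
    ⟨f.2.1.comp (perm_meas T n), f.2.2.imp fun _ hC _ => hC _⟩⟩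
  map_one' := rfl
  map_mul' _ _ := rfl
  map_zero' := rfl
  map_add' _ _ := rfl
  commutes' _ := rfl
  map_star' _ := rfl

theorem tauBM_apply (T : X ≃ᵐ X) (n : ℤ) (f : BM X) (x : X) :
    (tauBM T n f).1 x = f.1 (((T.toEquiv : Equiv.Perm X) ^ n) x) := rfl

variable {μ : Measure X} [IsProbabilityMeasure μ]

theorem bm_memLp (f : BM X) (p : ENNReal) : MemLp f.1 p μ := by
  obtain ⟨C, hC⟩ := f.2.2
  exact MemLp.of_bound f.2.1.aestronglyMeasurable C (Eventually.of_forall hC)

theorem bm_int (f : BM X) : Integrable f.1 μ := memLp_one_iff_integrable.1 (bm_memLp f 1)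

variable (μ) in
/-- the integral -/
noncomputable def EBM : BM X →ₗ[ℂ] ℂ where
  toFun f := ∫ x, f.1 x ∂μ
  map_add' f g := integral_add (bm_int f) (bm_int g)
  map_smul' c f := integral_const_mul c _

theorem star_mul_re (z : ℂ) : star z * z = ((‖z‖ ^ 2 : ℝ) : ℂ) := by
  rw [← Complex.normSq_eq_norm_sq, Complex.normSq_eq_conj_mul_self]
  rfl

theorem E_star_mul (f : BM X) : EBM μ (star f * f) = ((∫ x, ‖f.1 x‖ ^ 2 ∂μ : ℝ) : ℂ) := by
  show ∫ x, star (f.1 x) * f.1 x ∂μ = _
  simp_rw [star_mul_re]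
  exact integral_ofReal

/-- the system of bounded measurable functions -/
@[reducible] noncomputable def psysBM (T : X ≃ᵐ X) (hT : MeasurePreserving T μ μ) : PSys (BM X) where
  E := EBM μ
  E_one := by
    show ∫ x, (1 : ℂ) ∂μ = 1
    simp
  E_star a := by
    show ∫ x, star (a.1 x) ∂μ = _
    exact integral_conj
  E_nonneg a := by
    rw [E_star_mul, Complex.ofReal_re]
    exact integral_nonneg fun x => by positivity
  tau := tauBM T
  tau_zero a := rfl
  tau_add m n a := by
    apply Subtype.ext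
    funext x
    show a.1 (((T.toEquiv : Equiv.Perm X) ^ (m + n)) x) =
      a.1 (((T.toEquiv : Equiv.Perm X) ^ n) (((T.toEquiv : Equiv.Perm X) ^ m) x))
    rw [add_comm, zpow_add]
    rfl
  E_tau n a := by
    show ∫ x, a.1 (((T.toEquiv : Equiv.Perm X) ^ n) x) ∂μ = ∫ x, a.1 x ∂μ
    have h := perm_mp T hT n
    conv_rhs => rw [← h.map_eq]
    rw [integral_map h.measurable.aemeasurable a.2.1.aestronglyMeasurable]
  ball := {f | ∀ x, ‖f.1 x‖ ≤ 1}
  one_mem x := by
    show ‖(1 : ℂ)‖ ≤ 1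
    simp
  mul_mem a ha b hb x := by
    show ‖a.1 x * b.1 x‖ ≤ 1
    rw [norm_mul]
    exact mul_le_one₀ (ha x) (norm_nonneg _) (hb x)
  star_mem a ha x := by
    show ‖star (a.1 x)‖ ≤ 1
    rw [norm_star]
    exact ha x
  tau_mem n a ha x := ha _
  smul_mem c hc a ha x := by
    show ‖c * a.1 x‖ ≤ 1
    rw [norm_mul]
    exact mul_le_one₀ hc (norm_nonneg _) (ha x)
  avg_mem {ι} _ _ f hf x := by
    have h1 : (avg f).1 x = (Fintype.card ι : ℝ)⁻¹ • ∑ i, (f i).1 x := by
      unfold avg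
      have h2 : ((∑ i, f i : BM X)).1 x = ∑ i, (f i).1 x := by
        have h5 : ((∑ i, f i : BM X)).1 = ∑ i, (f i).1 := map_sum (BM X).subtype _ _
        rw [h5, Finset.sum_apply]
      rw [← h2]
      rfl
    rw [h1, norm_smul, norm_inv, Real.norm_natCast]
    have h3 : ‖∑ i, (f i).1 x‖ ≤ Fintype.card ι := by
      refine (norm_sum_le _ _).trans ?_
      refine (Finset.sum_le_sum fun i _ => hf i x).trans ?_
      simp
    have h4 : (0 : ℝ) < Fintype.card ι := by exact_mod_cast Fintype.card_pos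
    rw [inv_mul_le_iff₀ h4, mul_one]
    exact h3
  ball_le f hf a := by
    rw [E_star_mul, E_star_mul, Complex.ofReal_re, Complex.ofReal_re]
    apply integral_mono
    · exact (bm_memLp (f * a) 2).integrable_norm_pow (by norm_num)
    · exact (bm_memLp a 2).integrable_norm_pow (by norm_num)
    · intro x
      show ‖f.1 x * a.1 x‖ ^ 2 ≤ ‖a.1 x‖ ^ 2
      rw [norm_mul]
      have h1 : ‖f.1 x‖ * ‖a.1 x‖ ≤ ‖a.1 x‖ := mul_le_of_le_one_left (norm_nonneg _) (hf x)
      gcongr

end

end Pool.TC.Asm
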