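import Pool.Agent.Helper591.TC.Base

/-! # Characters, blocks (helper306, MP_e53872_an) -/

open scoped ComplexConjugate InnerProductSpace
open MeasureTheory Filter Topology

set_option autoImplicit false
set_option linter.unusedSectionVars false
set_option linter.style.haveILetI false

namespace Pool.TC.Asm

/-! ### characters -/

theorem ee_add (s t : ℝ) : ee (s + t) = ee s * ee t := by
  unfold ee
  rw [← Complex.exp_add]
  congr 1
  push_cast
  ring

theorem ee_norm (t : ℝ) : ‖ee t‖ = 1 := by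
  unfold ee
  have : (2 * (Real.pi : ℂ) * (t : ℂ) * Complex.I) = ((2 * Real.pi * t : ℝ) : ℂ) * Complex.I := by
    push_cast; ring
  rw [this, Complex.norm_exp_ofReal_mul_I]

theorem ee_zero : ee 0 = 1 := by simp [ee]

theorem ee_nat_mul (n : ℕ) (t : ℝ) : ee (n * t) = ee t ^ n := by
  unfold ee
  rw [← Complex.exp_nat_mul]
  congr 1
  push_cast
  ring

theorem ee_int (k : ℤ) : ee k = 1 := by
  unfold ee
  rw [Complex.exp_eq_one_iff]
  exact ⟨k, by push_cast; ring⟩

theorem ee_eq_one_iff (k : ℤ) : ee ((k : ℝ) / 9) = 1 ↔ (9 : ℤ) ∣ k := by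
  constructor
  · intro h
    unfold ee at h
    rw [Complex.exp_eq_one_iff] at h
    obtain ⟨n, hn⟩ := h
    have hpi : (2 * (Real.pi : ℂ) * Complex.I) ≠ 0 := Complex.two_pi_I_ne_zero
    have h2 : (((k : ℝ) / 9 : ℝ) : ℂ) = (n : ℂ) := by
      apply mul_right_cancel₀ hpi
      rw [← hn]
      ring
    have h3 : (k : ℝ) / 9 = n := by exact_mod_cast h2
    refine ⟨n, ?_⟩
    have h4 : (k : ℝ) = 9 * n := by linarith
    exact_mod_cast h4
  · rintro ⟨n, rfl⟩
    have : (((9 * n : ℤ) : ℝ)) / 9 = (n : ℝ) := by push_cast; ring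
    rw [this, ee_int]

theorem geo9 (k : ℤ) : ∑ j ∈ Finset.range 9, ee (j * ((k : ℝ) / 9)) = if (9 : ℤ) ∣ k then 9 else 0 := by
  have h1 : ∀ j ∈ Finset.range 9, ee (j * ((k : ℝ) / 9)) = ee ((k : ℝ) / 9) ^ j :=
    fun j _ => ee_nat_mul j _
  rw [Finset.sum_congr rfl h1]
  split_ifs with h
  · rw [(ee_eq_one_iff k).2 h]
    simp
  · have h2 : ee ((k : ℝ) / 9) ≠ 1 := fun h3 => h ((ee_eq_one_iff k).1 h3)
    rw [geom_sum_eq h2]
    have h3 : ee ((k : ℝ) / 9) ^ 9 = 1 := by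
      rw [← ee_nat_mul]
      have : ((9 : ℕ) : ℝ) * ((k : ℝ) / 9) = (k : ℝ) := by push_cast; ring
      rw [this, ee_int]
    rw [h3, sub_self, zero_div]

/-- Fourier coefficients of `psi` -/
noncomputable def cj (j : ℕ) : ℂ := (1 - ee (-((j : ℝ) / 3))) / 9

theorem cj_zero {j : ℕ} (h : 3 ∣ j) : cj j = 0 := by
  obtain ⟨k, rfl⟩ := h
  unfold cj
  have : -(((3 * k : ℕ) : ℝ) / 3) = ((-(k : ℤ) : ℤ) : ℝ) := by push_cast; ring
  rw [this, ee_int, sub_self, zero_div]

theorem psi_eq {N : ℕ} (ω : Om N) :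
    ((psi ω : ℤ) : ℂ) = ∑ j ∈ Finset.range 9, cj j * ee (j * (Wd ω : ℝ) / 9) := by
  have h0 := geo9 (Wd ω : ℤ)
  have h3 := geo9 ((Wd ω : ℤ) - 3)
  have e1 : ∑ j ∈ Finset.range 9, cj j * ee (j * (Wd ω : ℝ) / 9) =
      (∑ j ∈ Finset.range 9, ee (j * (((Wd ω : ℤ) : ℝ) / 9)) -
        ∑ j ∈ Finset.range 9, ee (j * ((((Wd ω : ℤ) - 3 : ℤ) : ℝ) / 9))) / 9 := by
    rw [← Finset.sum_sub_distrib, Finset.sum_div]
    apply Finset.sum_congr rfl
    intro j _
    have e2 : (j : ℝ) * ((((Wd ω : ℤ) - 3 : ℤ) : ℝ) / 9) = -((j : ℝ) / 3) + j * (Wd ω : ℝ) / 9 := by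
      push_cast; ring
    have e3 : (j : ℝ) * (((Wd ω : ℤ) : ℝ) / 9) = j * (Wd ω : ℝ) / 9 := by push_cast; ring
    rw [e2, e3, ee_add]
    unfold cj
    ring
  rw [e1, h0, h3]
  unfold psi
  by_cases ha : Wd ω % 9 = 0
  · have hb : (9 : ℤ) ∣ (Wd ω : ℤ) := by omega
    have hc : ¬ (9 : ℤ) ∣ (Wd ω : ℤ) - 3 := by omega
    rw [if_pos ha, if_pos hb, if_neg hc]
    norm_num
  · have hb : ¬ (9 : ℤ) ∣ (Wd ω : ℤ) := by omega
    rw [if_neg ha, if_neg hb]
    by_cases hd : Wd ω % 9 = 3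
    · have hc : (9 : ℤ) ∣ (Wd ω : ℤ) - 3 := by omega
      rw [if_pos hd, if_pos hc]
      norm_num
    · have hc : ¬ (9 : ℤ) ∣ (Wd ω : ℤ) - 3 := by omega
      rw [if_neg hd, if_neg hc]
      norm_num

/-! ### averages of characters of the digit count -/

theorem sum_prod3 {α β γ : Type} [Fintype α] [Fintype β] [Fintype γ] (g : β → ℂ) :
    ∑ ω : α × β × γ, g ω.2.1 = (Fintype.card α : ℂ) * ((∑ b, g b) * (Fintype.card γ : ℂ)) := by
  rw [Fintype.sum_prod_type]
  have h1 : ∀ a : α, ∑ y : β × γ, g (a, y).2.1 = (∑ b, g b) * (Fintype.card γ : ℂ) := by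
    intro a
    rw [Fintype.sum_prod_type, Finset.sum_mul]
    apply Finset.sum_congr rfl
    intro b _
    show ∑ _c : γ, g b = _
    rw [Finset.sum_const, Finset.card_univ, nsmul_eq_mul, mul_comm]
  rw [Finset.sum_congr rfl (fun a _ => h1 a), Finset.sum_const, Finset.card_univ, nsmul_eq_mul]

theorem avg_char (N : ℕ) (j : ℕ) :
    avg (fun ω : Om N => ee (j * (Wd ω : ℝ) / 9)) = ((1 + ee ((j : ℝ) / 9)) / 2) ^ N := by
  have h1 : ∀ ω : Om N, ee (j * (Wd ω : ℝ) / 9) =
      ∏ m : Fin N, (if ω.2.1 m then ee ((j : ℝ) / 9) else 1) := by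
    intro ω
    have h2 : (j : ℝ) * (Wd ω : ℝ) / 9 = (Wd ω : ℕ) * ((j : ℝ) / 9) := by ring
    rw [h2, ee_nat_mul]
    unfold Wd
    rw [← Finset.prod_pow_eq_pow_sum]
    apply Finset.prod_congr rfl
    intro m _
    split_ifs
    · rw [pow_one]
    · rw [pow_zero]
  have h3 : ∑ ω : Om N, ee (j * (Wd ω : ℝ) / 9) =
      (Fintype.card ((m : Fin N) → Fin (Q m)) : ℂ) * ((1 + ee ((j : ℝ) / 9)) ^ N *
        (Fintype.card ((m : Fin N) → Fin (Hw m (Q m))) : ℂ)) := by
    have h4 : ∑ b : Fin N → Bool, ∏ m : Fin N, (if b m then ee ((j : ℝ) / 9) else (1 : ℂ)) =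
        (1 + ee ((j : ℝ) / 9)) ^ N := by
      have h5 := Finset.prod_univ_sum (ι := Fin N) (κ := fun _ => Bool) (fun _ => Finset.univ)
        (fun _ b => if b then ee ((j : ℝ) / 9) else (1 : ℂ))
      rw [Fintype.piFinset_univ] at h5
      rw [← h5]
      simp [add_comm]
    rw [Finset.sum_congr rfl (fun ω _ => h1 ω), ← h4]
    exact sum_prod3 (fun b : Fin N → Bool => ∏ m : Fin N, (if b m then ee ((j : ℝ) / 9) else (1 : ℂ)))
  unfold avg
  rw [h3, Fintype.card_prod, Fintype.card_prod]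
  have c1 : (Fintype.card ((m : Fin N) → Fin (Q m)) : ℂ) ≠ 0 := by
    have : ∀ m : Fin N, Nonempty (Fin (Q m)) := fun m => ⟨⟨0, by unfold Q; positivity⟩⟩
    exact_mod_cast Fintype.card_ne_zero
  have c2 : (Fintype.card ((m : Fin N) → Fin (Hw m (Q m))) : ℂ) ≠ 0 := by
    have : ∀ m : Fin N, Nonempty (Fin (Hw m (Q m))) := fun m => ⟨⟨0, by unfold Hw Q; positivity⟩⟩
    exact_mod_cast Fintype.card_ne_zero
  have c3 : Fintype.card (Fin N → Bool) = 2 ^ N := by simp
  rw [c3, Complex.real_smul]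
  push_cast
  rw [div_pow]
  field_simp

theorem norm_half {z : ℂ} (hz : ‖z‖ = 1) (hz1 : z ≠ 1) : ‖(1 + z) / 2‖ < 1 := by
  have h1 : ‖1 + z‖ ^ 2 < 2 ^ 2 := by
    rw [← Complex.normSq_eq_norm_sq, Complex.normSq_apply]
    have h2 : z.re * z.re + z.im * z.im = 1 := by
      have := Complex.normSq_eq_norm_sq z
      rw [hz, Complex.normSq_apply] at this
      linarith
    have h3 : z.re < 1 := by
      have h4 : z.re ≤ 1 := by
        have := Complex.re_le_norm z
        linarith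
      rcases h4.lt_or_eq with h5 | h5
      · exact h5
      · exfalso
        apply hz1
        have h6 : z.im * z.im = 0 := by rw [h5] at h2; linarith
        apply Complex.ext
        · exact h5
        · exact mul_self_eq_zero.1 h6
    simp only [Complex.add_re, Complex.one_re, Complex.add_im, Complex.one_im, zero_add]
    nlinarith
  have h2 : ‖1 + z‖ < 2 := lt_of_pow_lt_pow_left₀ 2 (by norm_num) h1
  rw [norm_div]
  simp only [Complex.norm_ofNat]
  linarith

theorem char_tendsto (j : ℕ) (hj : ¬ 9 ∣ j) :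
    Tendsto (fun N : ℕ => avg (fun ω : Om N => ee (j * (Wd ω : ℝ) / 9))) atTop (𝓝 0) := by
  simp_rw [avg_char]
  apply tendsto_pow_atTop_nhds_zero_of_norm_lt_one
  apply norm_half (ee_norm _)
  intro h
  have h2 := (ee_eq_one_iff (j : ℤ)).1 (by push_cast; exact h)
  apply hj
  exact_mod_cast h2

theorem avg_add' {ι : Type} [Fintype ι] {V : Type*} [AddCommGroup V] [Module ℝ V] (f g : ι → V) :
    avg (fun i => f i + g i) = avg f + avg g := by
  unfold avg
  rw [Finset.sum_add_distrib, smul_add]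

theorem avg_sum' {ι κ : Type} [Fintype ι] (s : Finset κ) {V : Type*} [AddCommGroup V] [Module ℝ V]
    (f : κ → ι → V) : avg (fun i => ∑ k ∈ s, f k i) = ∑ k ∈ s, avg (f k) := by
  unfold avg
  rw [Finset.sum_comm, Finset.smul_sum]

theorem avg_mul' {ι : Type} [Fintype ι] (c : ℂ) (f : ι → ℂ) :
    avg (fun i => c * f i) = c * avg f := by
  unfold avg
  rw [← Finset.mul_sum, Complex.real_smul, Complex.real_smul]
  ring

/-- average of `psi` times a character -/
theorem psi_char (k : ℕ) (hk : k < 9) : Tendsto (fun N : ℕ => avg (fun ω : Om N =>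
    ((psi ω : ℤ) : ℂ) * ee (k * (Wd ω : ℝ) / 9))) atTop (𝓝 (if k = 0 then 0 else cj (9 - k))) := by
  have h1 : ∀ (N : ℕ), avg (fun ω : Om N => ((psi ω : ℤ) : ℂ) * ee (k * (Wd ω : ℝ) / 9)) =
      ∑ j ∈ Finset.range 9, cj j * avg (fun ω : Om N => ee (((j + k : ℕ) : ℝ) * (Wd ω : ℝ) / 9)) := by
    intro N
    have h2 : ∀ ω : Om N, ((psi ω : ℤ) : ℂ) * ee (k * (Wd ω : ℝ) / 9) =
        ∑ j ∈ Finset.range 9, cj j * ee (((j + k : ℕ) : ℝ) * (Wd ω : ℝ) / 9) := by
      intro ω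
      rw [psi_eq, Finset.sum_mul]
      apply Finset.sum_congr rfl
      intro j _
      rw [mul_assoc, ← ee_add]
      congr 2
      push_cast
      ring
    simp_rw [h2]
    rw [avg_sum']
    apply Finset.sum_congr rfl
    intro j _
    exact avg_mul' _ _
  simp_rw [h1]
  have h3 : ∀ j ∈ Finset.range 9, Tendsto (fun N : ℕ => cj j * avg (fun ω : Om N =>
      ee (((j + k : ℕ) : ℝ) * (Wd ω : ℝ) / 9))) atTop (𝓝 (if j + k = 9 then cj j else 0)) := by
    intro j hj
    rw [Finset.mem_range] at hj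
    by_cases h9 : j + k = 9
    · rw [if_pos h9, h9]
      have h4 : ∀ N : ℕ, avg (fun ω : Om N => ee (((9 : ℕ) : ℝ) * (Wd ω : ℝ) / 9)) = 1 := by
        intro N
        rw [avg_char]
        have : ((9 : ℕ) : ℝ) / 9 = ((1 : ℤ) : ℝ) := by norm_num
        rw [this, ee_int]
        norm_num
      simp_rw [h4, mul_one]
      exact tendsto_const_nhds
    · rw [if_neg h9]
      by_cases h0 : j + k = 0
      · have hj0 : j = 0 := by omega
        have : cj j = 0 := by rw [hj0]; exact cj_zero (dvd_zero 3)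
        simp_rw [this, zero_mul]
        exact tendsto_const_nhds
      · have h5 : ¬ 9 ∣ (j + k) := by omega
        have h6 := (char_tendsto (j + k) h5).const_mul (cj j)
        rw [mul_zero] at h6
        exact h6
  have h4 := tendsto_finsetSum (Finset.range 9) h3
  have h5 : (∑ j ∈ Finset.range 9, if j + k = 9 then cj j else 0) = if k = 0 then 0 else cj (9 - k) := by
    by_cases hk0 : k = 0
    · rw [if_pos hk0]
      apply Finset.sum_eq_zero
      intro j hj
      rw [Finset.mem_range] at hj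
      rw [if_neg (by omega)]
    · rw [if_neg hk0, Finset.sum_eq_single (9 - k)]
      · rw [if_pos (by omega)]
      · intro j _ hj
        rw [if_neg (by omega)]
      · intro h
        rw [Finset.mem_range] at h
        omega
  rw [h5] at h4
  exact h4

end Pool.TC.Asm
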