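import Pool.Agent.Helper306.TC.Asm1
import Pool.Agent.Helper306.TC.Asm2

/-! # Blocks and the embedding into `L²` (helper306, MP_e53872_an) -/

open scoped ComplexConjugate InnerProductSpace
open MeasureTheory Filter Topology

set_option autoImplicit false
set_option linter.unusedSectionVars false
set_option linter.style.haveILetI false

namespace Pool.TC.Asm

/-! ### blocks -/

/-- block with law `aval` -/
noncomputable def blkE (N : ℕ) : List ℤ := (Finset.univ : Finset (Om N)).toList.map (aval Lv)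

/-- block with law `aval` with density `1 + psi` (normalised) -/
noncomputable def blkO (N : ℕ) : List ℤ :=
  (Finset.univ : Finset (Om N)).toList.flatMap (fun ω => List.replicate (1 + psi ω).toNat (aval Lv ω))

theorem psi_bd {N : ℕ} (ω : Om N) : -1 ≤ psi ω ∧ psi ω ≤ 1 := by
  unfold psi
  split_ifs <;> omega

theorem psi_toNat {N : ℕ} (ω : Om N) : (((1 + psi ω).toNat : ℕ) : ℝ) = 1 + (psi ω : ℝ) := by
  have h := Int.toNat_of_nonneg (a := 1 + psi ω) (by have := psi_bd ω; omega)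
  have h2 : (((1 + psi ω).toNat : ℤ) : ℝ) = ((1 + psi ω : ℤ) : ℝ) := by rw [h]
  push_cast at h2
  exact h2

section
variable {V : Type} [AddCommGroup V] [Module ℝ V]

theorem blkE_len (N : ℕ) : (blkE N).length = Fintype.card (Om N) := by
  unfold blkE
  rw [List.length_map, Finset.length_toList, Finset.card_univ]

theorem blkE_sum (N : ℕ) (F : ℤ → V) : ((blkE N).map F).sum = ∑ ω : Om N, F (aval Lv ω) := by
  unfold blkE
  rw [List.map_map, Finset.sum_map_toList]
  rfl

theorem blkE_avg (N : ℕ) (F : ℤ → V) :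
    ((blkE N).length : ℝ)⁻¹ • ((blkE N).map F).sum = avg (fun ω : Om N => F (aval Lv ω)) := by
  rw [blkE_len, blkE_sum]
  rfl

theorem flat_sum {α : Type} (l : List α) (k : α → ℕ) (g : α → ℤ) (F : ℤ → V) :
    ((l.flatMap (fun a => List.replicate (k a) (g a))).map F).sum = (l.map (fun a => (k a : ℝ) • F (g a))).sum := by
  induction l with
  | nil => simp
  | cons a l ih =>
    rw [List.flatMap_cons, List.map_append, List.sum_append, ih, List.map_cons, List.sum_cons]
    congr 1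
    rw [List.map_replicate, List.sum_replicate, Nat.cast_smul_eq_nsmul]

theorem flat_len {α : Type} (l : List α) (k : α → ℕ) (g : α → ℤ) :
    (((l.flatMap (fun a => List.replicate (k a) (g a))).length : ℕ) : ℝ) = (l.map (fun a => (k a : ℝ))).sum := by
  induction l with
  | nil => simp
  | cons a l ih =>
    rw [List.flatMap_cons, List.length_append, List.map_cons, List.sum_cons, List.length_replicate]
    push_cast
    rw [ih]

theorem blkO_sum (N : ℕ) (F : ℤ → V) :
    ((blkO N).map F).sum = ∑ ω : Om N, (1 + (psi ω : ℝ)) • F (aval Lv ω) := by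
  unfold blkO
  rw [flat_sum, Finset.sum_map_toList]
  apply Finset.sum_congr rfl
  intro ω _
  rw [psi_toNat]

theorem blkO_len (N : ℕ) : ((blkO N).length : ℝ) = ∑ ω : Om N, (1 + (psi ω : ℝ)) := by
  unfold blkO
  rw [flat_len, Finset.sum_map_toList]
  apply Finset.sum_congr rfl
  intro ω _
  rw [psi_toNat]

instance om_nonempty (N : ℕ) : Nonempty (Om N) := by
  have h1 : ∀ m : Fin N, Nonempty (Fin (Q m)) := fun m => ⟨⟨0, by unfold Q; positivity⟩⟩
  have h2 : ∀ m : Fin N, Nonempty (Fin (Hw m (Q m))) := fun m => ⟨⟨0, by unfold Hw Q; positivity⟩⟩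
  infer_instance

theorem om_card_pos (N : ℕ) : (0 : ℝ) < Fintype.card (Om N) := by
  exact_mod_cast Fintype.card_pos

/-- there is a sample with all bits zero -/
theorem exists_psi_one (N : ℕ) : ∃ ω : Om N, psi ω = 1 := by
  obtain ⟨ω⟩ := om_nonempty N
  refine ⟨(ω.1, fun _ => false, ω.2.2), ?_⟩
  unfold psi
  have : Wd ((ω.1, (fun _ => false : Fin N → Bool), ω.2.2) : Om N) = 0 := by
    unfold Wd
    simp
  rw [this]
  simp

theorem blkO_len_pos (N : ℕ) : (0 : ℝ) < (blkO N).length := by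
  rw [blkO_len]
  obtain ⟨ω, hω⟩ := exists_psi_one N
  apply Finset.sum_pos'
  · intro ω _
    have := (psi_bd ω).1
    have h2 : (-1 : ℝ) ≤ psi ω := by exact_mod_cast this
    linarith
  · refine ⟨ω, Finset.mem_univ _, ?_⟩
    rw [hω]
    norm_num

theorem blkO_avg (N : ℕ) (F : ℤ → V) :
    ((blkO N).length : ℝ)⁻¹ • ((blkO N).map F).sum =
      (1 + avg (fun ω : Om N => (psi ω : ℝ)))⁻¹ • (avg (fun ω : Om N => F (aval Lv ω)) +
        avg (fun ω : Om N => (psi ω : ℝ) • F (aval Lv ω))) := by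
  rw [← avg_add', blkO_sum, blkO_len]
  have hc := (om_card_pos N).ne'
  have h1 : (1 + avg (fun ω : Om N => (psi ω : ℝ))) =
      (Fintype.card (Om N) : ℝ)⁻¹ * ∑ ω : Om N, (1 + (psi ω : ℝ)) := by
    unfold avg
    rw [Finset.sum_add_distrib, mul_add, smul_eq_mul]
    congr 1
    rw [Finset.sum_const, Finset.card_univ, nsmul_eq_mul, mul_one, inv_mul_cancel₀ hc]
  rw [h1]
  unfold avg
  rw [smul_smul, mul_inv, inv_inv]
  congr 1
  · field_simp
  · apply Finset.sum_congr rfl
    intro ω _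
    rw [add_smul, one_smul]

end

theorem blkE_ne (N : ℕ) : blkE N ≠ [] := by
  intro h
  have h1 := blkE_len N
  rw [h] at h1
  have h2 : 0 < Fintype.card (Om N) := Fintype.card_pos
  rw [← h1] at h2
  exact absurd h2 (lt_irrefl 0)

theorem blkO_ne (N : ℕ) : blkO N ≠ [] := by
  intro h
  have h1 := blkO_len_pos N
  rw [h] at h1
  simp at h1

/-- all blocks -/
noncomputable def lst (j : ℕ) : List ℤ := if j % 2 = 0 then blkE (j / 2) else blkO (j / 2)

theorem lst_ne (j : ℕ) : lst j ≠ [] := by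
  unfold lst
  split_ifs
  · exact blkE_ne _
  · exact blkO_ne _

theorem lst_even (N : ℕ) : lst (2 * N) = blkE N := by
  unfold lst
  rw [if_pos (by omega)]
  congr 1
  omega

theorem lst_odd (N : ℕ) : lst (2 * N + 1) = blkO N := by
  unfold lst
  rw [if_neg (by omega)]
  congr 1
  omega

theorem tendsto_evenodd {V : Type} [TopologicalSpace V] (G : ℕ → V) (y : V)
    (h0 : Tendsto (fun N => G (2 * N)) atTop (𝓝 y)) (h1 : Tendsto (fun N => G (2 * N + 1)) atTop (𝓝 y)) :
    Tendsto G atTop (𝓝 y) := by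
  rw [tendsto_atTop'] at h0 h1 ⊢
  intro s hs
  obtain ⟨a0, ha0⟩ := h0 s hs
  obtain ⟨a1, ha1⟩ := h1 s hs
  refine ⟨2 * (a0 + a1) + 1, fun j hj => ?_⟩
  rcases Nat.even_or_odd' j with ⟨k, rfl | rfl⟩
  · exact ha0 k (by omega)
  · exact ha1 k (by omega)

/-! ### the embedding into `L²` -/

section
variable {X : Type} [MeasurableSpace X] {μ : Measure X} [IsProbabilityMeasure μ]

variable (μ) in
/-- class in `L²` -/
noncomputable def toL : BM X →ₗ[ℂ] Lp ℂ 2 μ where
  toFun f := (bm_memLp f 2).toLp f.1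
  map_add' f g := MemLp.toLp_add (bm_memLp f 2) (bm_memLp g 2)
  map_smul' c f := MemLp.toLp_const_smul c (bm_memLp f 2)

theorem toL_coe (f : BM X) : (toL μ f : X → ℂ) =ᵐ[μ] f.1 := MemLp.coeFn_toLp (bm_memLp f 2)

theorem norm_toL_sq (f : BM X) : ‖toL μ f‖ ^ 2 = ∫ x, ‖f.1 x‖ ^ 2 ∂μ := by
  have h1 : ((‖toL μ f‖ ^ 2 : ℝ) : ℂ) = ((∫ x, ‖f.1 x‖ ^ 2 ∂μ : ℝ) : ℂ) := by
    have h2 := inner_self_eq_norm_sq_to_K (𝕜 := ℂ) (toL μ f)
    rw [L2.inner_def] at h2
    rw [← integral_complex_ofReal]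
    have h3 : ∫ x, ⟪(toL μ f : X → ℂ) x, (toL μ f : X → ℂ) x⟫_ℂ ∂μ = ∫ x, ((‖f.1 x‖ ^ 2 : ℝ) : ℂ) ∂μ := by
      apply integral_congr_ae
      filter_upwards [toL_coe f] with x hx
      rw [hx, inner_self_eq_norm_sq_to_K]
      push_cast
      rfl
    rw [h3] at h2
    rw [h2]
    push_cast
    rfl
  exact_mod_cast h1

theorem norm_toL (T : X ≃ᵐ X) (hT : MeasurePreserving T μ μ) (f : BM X) :
    ‖toL μ f‖ = (letI := psysBM T hT; ‖f‖) := by
  letI := psysBM T hT
  have h1 := norm_sq_def f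
  have h2 : (PSys.E (star f * f)).re = ∫ x, ‖f.1 x‖ ^ 2 ∂μ := by
    show (EBM μ (star f * f)).re = _
    rw [E_star_mul, Complex.ofReal_re]
  rw [h2, ← norm_toL_sq] at h1
  exact (pow_left_inj₀ (norm_nonneg _) (norm_nonneg _) (by norm_num)).1 h1.symm

end

end Pool.TC.Asm
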