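import Mathlib
import Pool.Agent.Helper591.TC.Base
set_option autoImplicit false
set_option linter.unusedSectionVars false
set_option linter.style.haveILetI false
set_option linter.deprecated false
open MeasureTheory Set Filter Topology

namespace Pool.Agent.Helper306.Corner

/-! ### uniform measure on a finite group -/

/-- uniform probability measure on a finite type -/
noncomputable def unif (K : Type) [Fintype K] [MeasurableSpace K] : Measure K :=
  (Fintype.card K : ENNReal)⁻¹ • Measure.count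

instance unif_prob (K : Type) [Fintype K] [Nonempty K] [MeasurableSpace K]
    [MeasurableSingletonClass K] : IsProbabilityMeasure (unif K) := by
  constructor
  unfold unif
  rw [Measure.smul_apply, Measure.count_apply MeasurableSet.univ, smul_eq_mul]
  have h1 : (Fintype.card K : ENNReal) ≠ 0 := by
    simp
  have h2 : (Fintype.card K : ENNReal) ≠ ⊤ := ENNReal.natCast_ne_top _
  have h3 : (((univ : Set K).encard : ℕ∞) : ENNReal) = (Fintype.card K : ENNReal) := by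
    rw [Set.encard_univ, ENat.card_eq_coe_fintype_card]
    rfl
  rw [h3, ENNReal.inv_mul_cancel h1 h2]

theorem unif_apply (K : Type) [Fintype K] [MeasurableSpace K] [MeasurableSingletonClass K]
    (s : Finset K) : unif K (s : Set K) = (s.card : ENNReal) / Fintype.card K := by
  unfold unif
  rw [Measure.smul_apply, Measure.count_apply_finset, smul_eq_mul, ENNReal.div_eq_inv_mul]

theorem unif_map_add (K : Type) [Fintype K] [AddCommGroup K] [MeasurableSpace K]
    [MeasurableSingletonClass K] (k : K) : (unif K).map (fun x => x + k) = unif K := by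
  have hm : Measurable (fun x : K => x + k) := measurable_of_finite _
  ext s hs
  rw [Measure.map_apply hm hs]
  classical
  have e1 : s = ((Set.toFinite s).toFinset : Set K) := (Set.Finite.coe_toFinset _).symm
  have e2 : (fun x : K => x + k) ⁻¹' s = (((Set.toFinite s).toFinset.image (fun x => x - k) : Finset K) : Set K) := by
    ext x
    simp only [mem_preimage, Finset.coe_image, Set.Finite.coe_toFinset, mem_image]
    constructor
    · intro h
      exact ⟨x + k, h, by abel⟩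
    · rintro ⟨y, hy, rfl⟩
      simpa using hy
  rw [e2, unif_apply]
  conv_rhs => rw [e1]
  rw [unif_apply, Finset.card_image_of_injective _ (sub_left_injective)]

/-! ### skew products over translations -/
section skew

variable {B : Type} [AddCommGroup B] [MeasurableSpace B]
variable {K : Type} [AddCommGroup K] [MeasurableSpace K]

/-- displacement -/
def gv (g1 g2 : B) (p : ℤ × ℤ) : B := p.1 • g1 + p.2 • g2

theorem gv_add (g1 g2 : B) (p q : ℤ × ℤ) : gv g1 g2 (p + q) = gv g1 g2 p + gv g1 g2 q := by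
  simp only [gv, Prod.fst_add, Prod.snd_add, add_smul]
  abel

theorem gv_zero (g1 g2 : B) : gv g1 g2 0 = 0 := by simp [gv]

/-- regular points -/
def Reg (g1 g2 : B) (φ : ℕ → B → K) (b : B) : Prop :=
  ∀ p : ℤ × ℤ, ∃ n, ∀ i, n ≤ i → φ i (b + gv g1 g2 p) = φ i b

theorem reg_shift {g1 g2 : B} {φ : ℕ → B → K} {b : B} (h : Reg g1 g2 φ b) (q : ℤ × ℤ) :
    Reg g1 g2 φ (b + gv g1 g2 q) := by
  intro p
  obtain ⟨n, hn⟩ := h (q + p)
  obtain ⟨m, hm⟩ := h q
  refine ⟨max n m, fun i hi => ?_⟩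
  rw [hm i (le_trans (le_max_right _ _) hi), ← hn i (le_trans (le_max_left _ _) hi), gv_add, add_assoc]

theorem reg_shift_iff {g1 g2 : B} {φ : ℕ → B → K} {b : B} (q : ℤ × ℤ) :
    Reg g1 g2 φ (b + gv g1 g2 q) ↔ Reg g1 g2 φ b := by
  constructor
  · intro h
    have h2 := reg_shift h (-q)
    rw [add_assoc, ← gv_add, add_neg_cancel, gv_zero, add_zero] at h2
    exact h2
  · intro h
    exact reg_shift h q

theorem reg_supp {g1 g2 : B} {φ : ℕ → B → K} {b : B} (h : Reg g1 g2 φ b) (p : ℤ × ℤ) :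
    ∃ n, Function.support (fun i => φ i (b + gv g1 g2 p) - φ i b) ⊆ (Finset.range n : Set ℕ) := by
  obtain ⟨n, hn⟩ := h p
  refine ⟨n, fun i hi => ?_⟩
  rw [Finset.coe_range, Set.mem_Iio]
  by_contra h2
  apply hi
  show φ i (b + gv g1 g2 p) - φ i b = 0
  rw [hn i (not_lt.1 h2), sub_self]

open Classical in
/-- the cocycle -/
noncomputable def cc (g1 g2 : B) (φ : ℕ → B → K) (p : ℤ × ℤ) (b : B) : K :=
  if Reg g1 g2 φ b then ∑ᶠ i, (φ i (b + gv g1 g2 p) - φ i b) else 0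

theorem cc_zero (g1 g2 : B) (φ : ℕ → B → K) (b : B) : cc g1 g2 φ 0 b = 0 := by
  unfold cc
  split_ifs
  · simp [gv_zero]
  · rfl

theorem cc_add (g1 g2 : B) (φ : ℕ → B → K) (p q : ℤ × ℤ) (b : B) :
    cc g1 g2 φ (p + q) b = cc g1 g2 φ p b + cc g1 g2 φ q (b + gv g1 g2 p) := by
  unfold cc
  by_cases h : Reg g1 g2 φ b
  · rw [if_pos h, if_pos h, if_pos (reg_shift h p)]
    rw [← finsum_add_distrib]
    · apply finsum_congr
      intro i
      rw [gv_add, add_assoc]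
      abel
    · obtain ⟨n, hn⟩ := reg_supp h p
      exact (Finset.finite_toSet _).subset hn
    · obtain ⟨n, hn⟩ := reg_supp (reg_shift h p) q
      exact (Finset.finite_toSet _).subset hn
  · rw [if_neg h, if_neg h, if_neg (fun h2 => h ((reg_shift_iff p).1 h2)), add_zero]

theorem reg_meas [Countable K] [DiscreteMeasurableSpace K] [DiscreteMeasurableSpace (K × K)]
    (g1 g2 : B) (φ : ℕ → B → K)
    (hφ : ∀ i, Measurable (φ i)) (hadd : ∀ g : B, Measurable (fun b : B => b + g)) :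
    MeasurableSet {b | Reg g1 g2 φ b} := by
  have e : {b | Reg g1 g2 φ b} = ⋂ p : ℤ × ℤ, ⋃ n : ℕ, ⋂ i : ℕ, ⋂ _ : n ≤ i,
      {b | φ i (b + gv g1 g2 p) = φ i b} := by
    ext b
    simp only [Reg, mem_setOf_eq, mem_iInter, mem_iUnion]
  rw [e]
  refine MeasurableSet.iInter fun p => MeasurableSet.iUnion fun n => MeasurableSet.iInter fun i =>
    MeasurableSet.iInter fun _ => ?_
  have h1 : Measurable (fun b => (φ i (b + gv g1 g2 p), φ i b)) :=
    ((hφ i).comp (hadd _)).prodMk (hφ i)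
  have h2 : MeasurableSet {k : K × K | k.1 = k.2} := MeasurableSet.of_discrete
  exact h1 h2

theorem cc_meas [Countable K] [DiscreteMeasurableSpace K] [DiscreteMeasurableSpace (K × K)]
    (g1 g2 : B) (φ : ℕ → B → K)
    (hφ : ∀ i, Measurable (φ i)) (hadd : ∀ g : B, Measurable (fun b : B => b + g)) (p : ℤ × ℤ) :
    Measurable (cc g1 g2 φ p) := by
  haveI : MeasurableAdd₂ K := ⟨Measurable.of_discrete⟩
  haveI : MeasurableSub₂ K := ⟨Measurable.of_discrete⟩
  apply measurable_to_countable'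
  intro k
  have hS : ∀ m : ℕ, Measurable (fun b => ∑ i ∈ Finset.range m, (φ i (b + gv g1 g2 p) - φ i b)) := by
    intro m
    apply Finset.measurable_fun_sum
    intro i _
    exact ((hφ i).comp (hadd _)).sub (hφ i)
  have e : cc g1 g2 φ p ⁻¹' {k} = ({b | Reg g1 g2 φ b} ∩ ⋃ n : ℕ, ⋂ m : ℕ, ⋂ _ : n ≤ m,
      {b | (∑ i ∈ Finset.range m, (φ i (b + gv g1 g2 p) - φ i b)) = k}) ∪
      ({b | Reg g1 g2 φ b}ᶜ ∩ {_b | (0 : K) = k}) := by
    ext b
    by_cases h : Reg g1 g2 φ b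
    · obtain ⟨n, hn⟩ := reg_supp h p
      have hm : ∀ m, n ≤ m → ∑ᶠ i, (φ i (b + gv g1 g2 p) - φ i b) =
          ∑ i ∈ Finset.range m, (φ i (b + gv g1 g2 p) - φ i b) := by
        intro m hm
        apply finsum_eq_sum_of_support_subset
        refine hn.trans ?_
        intro i hi
        rw [Finset.coe_range, Set.mem_Iio] at hi ⊢
        omega
      simp only [mem_preimage, mem_singleton_iff, mem_union, mem_inter_iff, mem_setOf_eq, h,
        true_and, mem_iUnion, mem_iInter, mem_compl_iff, not_true_eq_false, false_and, or_false]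
      unfold cc
      rw [if_pos h]
      constructor
      · intro h1
        exact ⟨n, fun m hnm => by rw [← hm m hnm]; exact h1⟩
      · rintro ⟨n', hn'⟩
        rw [hm (max n n') (le_max_left _ _)]
        exact hn' _ (le_max_right _ _)
    · simp only [mem_preimage, mem_singleton_iff, mem_union, mem_inter_iff, mem_setOf_eq, h,
        false_and, mem_compl_iff, not_false_eq_true, true_and, false_or]
      unfold cc
      rw [if_neg h]
  rw [e]
  have hR := reg_meas g1 g2 φ hφ hadd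
  refine MeasurableSet.union (hR.inter ?_) (hR.compl.inter ?_)
  · refine MeasurableSet.iUnion fun n => MeasurableSet.iInter fun m => MeasurableSet.iInter fun _ => ?_
    exact hS m (measurableSet_singleton k)
  · exact MeasurableSet.const _

variable [Countable K] [DiscreteMeasurableSpace K] [DiscreteMeasurableSpace (K × K)]

/-- the skew product -/
noncomputable def Tm (g1 g2 : B) (φ : ℕ → B → K) (hφ : ∀ i, Measurable (φ i))
    (hadd : ∀ g : B, Measurable (fun b : B => b + g)) (p : ℤ × ℤ) : (B × K) ≃ᵐ (B × K) where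
  toFun ω := (ω.1 + gv g1 g2 p, ω.2 + cc g1 g2 φ p ω.1)
  invFun ω := (ω.1 + gv g1 g2 (-p), ω.2 + cc g1 g2 φ (-p) ω.1)
  left_inv ω := by
    obtain ⟨b, u⟩ := ω
    ext
    · show b + gv g1 g2 p + gv g1 g2 (-p) = b
      rw [add_assoc, ← gv_add, add_neg_cancel, gv_zero, add_zero]
    · show u + cc g1 g2 φ p b + cc g1 g2 φ (-p) (b + gv g1 g2 p) = u
      rw [add_assoc, ← cc_add, add_neg_cancel, cc_zero, add_zero]
  right_inv ω := by
    obtain ⟨b, u⟩ := ω
    ext
    · show b + gv g1 g2 (-p) + gv g1 g2 p = b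
      rw [add_assoc, ← gv_add, neg_add_cancel, gv_zero, add_zero]
    · show u + cc g1 g2 φ (-p) b + cc g1 g2 φ p (b + gv g1 g2 (-p)) = u
      rw [add_assoc, ← cc_add, neg_add_cancel, cc_zero, add_zero]
  measurable_toFun := by
    haveI : MeasurableAdd₂ K := ⟨Measurable.of_discrete⟩
    exact ((hadd _).comp measurable_fst).prodMk
      (measurable_snd.add ((cc_meas g1 g2 φ hφ hadd p).comp measurable_fst))
  measurable_invFun := by
    haveI : MeasurableAdd₂ K := ⟨Measurable.of_discrete⟩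
    exact ((hadd _).comp measurable_fst).prodMk
      (measurable_snd.add ((cc_meas g1 g2 φ hφ hadd (-p)).comp measurable_fst))

theorem Tm_apply (g1 g2 : B) (φ : ℕ → B → K) (hφ : ∀ i, Measurable (φ i))
    (hadd : ∀ g : B, Measurable (fun b : B => b + g)) (p : ℤ × ℤ) (ω : B × K) :
    Tm g1 g2 φ hφ hadd p ω = (ω.1 + gv g1 g2 p, ω.2 + cc g1 g2 φ p ω.1) := rfl

theorem Tm_add (g1 g2 : B) (φ : ℕ → B → K) (hφ : ∀ i, Measurable (φ i))
    (hadd : ∀ g : B, Measurable (fun b : B => b + g)) (p q : ℤ × ℤ) (ω : B × K) :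
    Tm g1 g2 φ hφ hadd (p + q) ω = Tm g1 g2 φ hφ hadd p (Tm g1 g2 φ hφ hadd q ω) := by
  obtain ⟨b, u⟩ := ω
  rw [Tm_apply, Tm_apply, Tm_apply]
  ext
  · show b + gv g1 g2 (p + q) = b + gv g1 g2 q + gv g1 g2 p
    rw [add_comm p q, gv_add, add_assoc]
  · show u + cc g1 g2 φ (p + q) b = u + cc g1 g2 φ q b + cc g1 g2 φ p (b + gv g1 g2 q)
    rw [add_comm p q, cc_add, add_assoc]

theorem Tm_zero (g1 g2 : B) (φ : ℕ → B → K) (hφ : ∀ i, Measurable (φ i))
    (hadd : ∀ g : B, Measurable (fun b : B => b + g)) (ω : B × K) :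
    Tm g1 g2 φ hφ hadd 0 ω = ω := by
  obtain ⟨b, u⟩ := ω
  rw [Tm_apply]
  ext
  · show b + gv g1 g2 0 = b
    rw [gv_zero, add_zero]
  · show u + cc g1 g2 φ 0 b = u
    rw [cc_zero, add_zero]

/-- the action as a homomorphism -/
noncomputable def Th (g1 g2 : B) (φ : ℕ → B → K) (hφ : ∀ i, Measurable (φ i))
    (hadd : ∀ g : B, Measurable (fun b : B => b + g)) :
    Multiplicative (ℤ × ℤ) →* Equiv.Perm (B × K) where
  toFun p := (Tm g1 g2 φ hφ hadd p.toAdd).toEquiv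
  map_one' := by
    ext1 ω
    exact Tm_zero g1 g2 φ hφ hadd ω
  map_mul' p q := by
    ext1 ω
    exact Tm_add g1 g2 φ hφ hadd p.toAdd q.toAdd ω

theorem Tm_zpow (g1 g2 : B) (φ : ℕ → B → K) (hφ : ∀ i, Measurable (φ i))
    (hadd : ∀ g : B, Measurable (fun b : B => b + g)) (p : ℤ × ℤ) (k : ℤ) (ω : B × K) :
    (((Tm g1 g2 φ hφ hadd p).toEquiv : Equiv.Perm (B × K)) ^ k) ω = Tm g1 g2 φ hφ hadd (k • p) ω := by
  have h1 : ((Tm g1 g2 φ hφ hadd p).toEquiv : Equiv.Perm (B × K)) =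
    Th g1 g2 φ hφ hadd (Multiplicative.ofAdd p) := rfl
  rw [h1, ← map_zpow]
  rfl

theorem Tm_mp (g1 g2 : B) (φ : ℕ → B → K) (hφ : ∀ i, Measurable (φ i))
    (hadd : ∀ g : B, Measurable (fun b : B => b + g)) (p : ℤ × ℤ)
    (β : Measure B) [SFinite β] (κ : Measure K) [SFinite κ]
    (hβ : ∀ g : B, MeasurePreserving (fun b : B => b + g) β β)
    (hκ : ∀ k : K, κ.map (fun x => x + k) = κ) :
    MeasurePreserving (Tm g1 g2 φ hφ hadd p) (β.prod κ) (β.prod κ) := by
  haveI : MeasurableAdd₂ K := ⟨Measurable.of_discrete⟩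
  exact MeasurePreserving.skew_product (hβ (gv g1 g2 p))
    (g := fun (b : B) (u : K) => u + cc g1 g2 φ p b)
    (measurable_snd.add ((cc_meas g1 g2 φ hφ hadd p).comp measurable_fst))
    (Eventually.of_forall fun b => hκ (cc g1 g2 φ p b))

end skew

/-! ### the concrete system -/
section concrete

theorem fl_add (L : ℕ) [NeZero L] (z : ZMod (3 * L)) (c : ℤ) (r : ℕ) (e : ℤ)
    (hc : c ≡ r * L + e [ZMOD (3 * L : ℕ)]) (h0 : 0 ≤ ((z.val % L : ℕ) : ℤ) + e)
    (h1 : ((z.val % L : ℕ) : ℤ) + e < L) : (z + (c : ZMod (3 * L))).val / L = (z.val / L + r) % 3 := by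
  have hL : 0 < L := Nat.pos_of_ne_zero (NeZero.ne L)
  obtain ⟨t, ht⟩ := Int.eq_ofNat_of_zero_le h0
  have ht1 : t < L := by omega
  obtain ⟨V, hV⟩ : ∃ V, V = z.val / L := ⟨_, rfl⟩
  obtain ⟨R, hR⟩ : ∃ R, R = z.val % L := ⟨_, rfl⟩
  obtain ⟨Q, hQ⟩ : ∃ Q, Q = (V + r) % 3 := ⟨_, rfl⟩
  obtain ⟨W, hW⟩ : ∃ W, W = (V + r) / 3 := ⟨_, rfl⟩
  rw [← hV, ← hQ]
  rw [← hR] at ht
  have hQ2 : Q ≤ 2 := by omega
  have hlt : Q * L + t < 3 * L := by nlinarith
  have e3 : (z.val : ℤ) = V * L + R := by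
    have h3 := Nat.div_add_mod z.val L
    rw [← hV, ← hR] at h3
    rw [← h3]; push_cast; ring
  have e4 : (V : ℤ) + r = Q + 3 * W := by omega
  have hz : z + (c : ZMod (3 * L)) = ((Q * L + t : ℕ) : ZMod (3 * L)) := by
    have e1 : z = ((z.val : ℤ) : ZMod (3 * L)) := by simp
    conv_lhs => rw [e1]
    rw [← Int.cast_add]
    have e2 : ((Q * L + t : ℕ) : ZMod (3 * L)) = (((Q * L + t : ℕ) : ℤ) : ZMod (3 * L)) := by
      push_cast; rfl
    rw [e2, ZMod.intCast_eq_intCast_iff]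
    have e5 : (z.val : ℤ) + (r * L + e) = ((Q * L + t : ℕ) : ℤ) + (3 * L : ℕ) * (W : ℤ) := by
      push_cast
      rw [e3]
      linear_combination (L : ℤ) * e4 + ht
    calc (z.val : ℤ) + c ≡ (z.val : ℤ) + (r * L + e) [ZMOD (3 * L : ℕ)] := Int.ModEq.add_left _ hc
      _ = ((Q * L + t : ℕ) : ℤ) + (3 * L : ℕ) * (W : ℤ) := e5
      _ ≡ ((Q * L + t : ℕ) : ℤ) [ZMOD (3 * L : ℕ)] :=
        (Int.modEq_iff_add_fac.2 ⟨-(W : ℤ), by ring⟩)
  rw [hz, ZMod.val_natCast_of_lt hlt]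
  rw [Nat.add_comm, Nat.add_mul_div_right _ _ hL, Nat.div_eq_of_lt ht1, Nat.zero_add]

/-- base coordinates -/
abbrev XX (L : ℕ → ℕ) : Type := ∀ i, ZMod (3 * L i)

/-- the digit -/
def fl (L : ℕ → ℕ) (i : ℕ) (z : ZMod (3 * L i)) : ℕ := z.val / L i

abbrev K9 : Type := ZMod 9 × ZMod 9

/-- the potentials -/
def pot (L : ℕ → ℕ) (i : ℕ) (b : XX L × XX L) : K9 :=
  ((fl L i (b.1 i) : ZMod 9), if fl L i (b.1 i) = 2 then 3 * (fl L i (b.2 i) : ZMod 9) else 0)

/-- the good digits -/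
def Gd (L E : ℕ → ℕ) (i : ℕ) (z : ZMod (3 * L i)) : Prop :=
  i ≤ z.val % L i ∧ z.val % L i + E i + i < L i

/-- the good set -/
def Gs (L E : ℕ → ℕ) : Set (XX L × XX L) := {b | ∀ i, Gd L E i (b.1 i) ∧ Gd L E i (b.2 i)}

variable (L E : ℕ → ℕ) [hLz : ∀ i, NeZero (L i)]

theorem fl_lt (i : ℕ) (z : ZMod (3 * L i)) : fl L i z < 3 := by
  unfold fl
  rw [Nat.div_lt_iff_lt_mul (Nat.pos_of_ne_zero (NeZero.ne (L i)))]
  exact ZMod.val_lt z

theorem fl_small (i : ℕ) (z : ZMod (3 * L i)) (hz : Gd L E i z) (k : ℤ) (hk : k.natAbs ≤ i) :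
    fl L i (z + (k : ZMod (3 * L i))) = fl L i z := by
  have h := fl_add (L i) z k 0 k (by simp) (by have := hz.1; omega) (by have := hz.2; omega)
  have h2 := fl_lt L i z
  unfold fl at h2 ⊢
  rw [h, Nat.add_zero, Nat.mod_eq_of_lt h2]

theorem fl_big (i : ℕ) (z : ZMod (3 * L i)) (hz : Gd L E i z) (a : ℤ) (r e : ℕ) (he : e ≤ E i)
    (ha : ((r * L i + e : ℕ) : ℤ) ≡ a [ZMOD (3 * L i : ℕ)]) :
    fl L i (z + (a : ZMod (3 * L i))) = (fl L i z + r) % 3 := by
  unfold fl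
  refine fl_add (L i) z a r e ?_ (by positivity) (by have := hz.2; omega)
  have := ha.symm
  push_cast at this ⊢
  exact this

/-- first and second generator -/
def ga (L : ℕ → ℕ) : XX L × XX L := (1, 0)
def gb (L : ℕ → ℕ) : XX L × XX L := (0, 1)

theorem gv_fst (L : ℕ → ℕ) (p : ℤ × ℤ) (i : ℕ) :
    (gv (ga L) (gb L) p).1 i = ((p.1 : ℤ) : ZMod (3 * L i)) := by
  simp [gv, ga, gb]

theorem gv_snd (L : ℕ → ℕ) (p : ℤ × ℤ) (i : ℕ) :
    (gv (ga L) (gb L) p).2 i = ((p.2 : ℤ) : ZMod (3 * L i)) := by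
  simp [gv, ga, gb]

theorem reg_good (b : XX L × XX L) (hb : b ∈ Gs L E) : Reg (ga L) (gb L) (pot L) b := by
  intro p
  refine ⟨max p.1.natAbs p.2.natAbs, fun i hi => ?_⟩
  have h1 : fl L i ((b + gv (ga L) (gb L) p).1 i) = fl L i (b.1 i) := by
    rw [Prod.fst_add, Pi.add_apply, gv_fst]
    exact fl_small L E i _ (hb i).1 _ (le_trans (le_max_left _ _) hi)
  have h2 : fl L i ((b + gv (ga L) (gb L) p).2 i) = fl L i (b.2 i) := by
    rw [Prod.snd_add, Pi.add_apply, gv_snd]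
    exact fl_small L E i _ (hb i).2 _ (le_trans (le_max_right _ _) hi)
  unfold pot
  rw [h1, h2]

theorem key_dec : ∀ q < 3, ∀ q' < 3, ∀ r ≤ 1,
    ((((q + r) % 3 : ℕ) : ZMod 9) - (q : ZMod 9)) +
      ((if q = 2 then 3 * (((q' + r) % 3 : ℕ) : ZMod 9) else 0) -
        (if q = 2 then 3 * ((q' : ℕ) : ZMod 9) else 0)) = (r : ZMod 9) := by decide

/-- the two cocycles see the weight -/
theorem cc_key (b : XX L × XX L) (hb : b ∈ Gs L E) (a : ℤ) (r e : ℕ → ℕ) (hr : ∀ i, r i ≤ 1)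
    (he : ∀ i, e i ≤ E i) (ha : ∀ i, ((r i * L i + e i : ℕ) : ℤ) ≡ a [ZMOD (3 * L i : ℕ)])
    (n : ℕ) (hn : ∀ i, n ≤ i → r i = 0) :
    (cc (ga L) (gb L) (pot L) (a, 0) b).1 + (cc (ga L) (gb L) (pot L) (0, a) b).2 =
      ((∑ i ∈ Finset.range n, r i : ℕ) : ZMod 9) := by
  have hreg := reg_good L E b hb
  obtain ⟨n1, hn1⟩ := reg_supp hreg (a, 0)
  obtain ⟨n2, hn2⟩ := reg_supp hreg (0, a)
  obtain ⟨m, hm⟩ : ∃ m, m = max n (max n1 n2) := ⟨_, rfl⟩
  have hs1 : ∑ᶠ i, (pot L i (b + gv (ga L) (gb L) (a, 0)) - pot L i b) =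
      ∑ i ∈ Finset.range m, (pot L i (b + gv (ga L) (gb L) (a, 0)) - pot L i b) := by
    apply finsum_eq_sum_of_support_subset
    refine hn1.trans ?_
    intro i hi
    rw [Finset.coe_range, Set.mem_Iio] at hi ⊢
    omega
  have hs2 : ∑ᶠ i, (pot L i (b + gv (ga L) (gb L) (0, a)) - pot L i b) =
      ∑ i ∈ Finset.range m, (pot L i (b + gv (ga L) (gb L) (0, a)) - pot L i b) := by
    apply finsum_eq_sum_of_support_subset
    refine hn2.trans ?_
    intro i hi
    rw [Finset.coe_range, Set.mem_Iio] at hi ⊢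
    omega
  unfold cc
  rw [if_pos hreg, if_pos hreg, hs1, hs2, Prod.fst_sum, Prod.snd_sum, ← Finset.sum_add_distrib]
  have h3 : ((∑ i ∈ Finset.range n, r i : ℕ) : ZMod 9) = ((∑ i ∈ Finset.range m, r i : ℕ) : ZMod 9) := by
    congr 1
    apply Finset.sum_subset
    · intro i hi
      rw [Finset.mem_range] at hi ⊢
      omega
    · intro i _ hi
      rw [Finset.mem_range] at hi
      exact hn i (by omega)
  rw [h3, Nat.cast_sum]
  apply Finset.sum_congr rfl
  intro i _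
  have hq := fl_lt L i (b.1 i)
  have hq' := fl_lt L i (b.2 i)
  have k1 : fl L i ((b + gv (ga L) (gb L) (a, 0)).1 i) = (fl L i (b.1 i) + r i) % 3 := by
    rw [Prod.fst_add, Pi.add_apply, gv_fst]
    exact fl_big L E i _ (hb i).1 a (r i) (e i) (he i) (ha i)
  have k2 : fl L i ((b + gv (ga L) (gb L) (0, a)).2 i) = (fl L i (b.2 i) + r i) % 3 := by
    rw [Prod.snd_add, Pi.add_apply, gv_snd]
    exact fl_big L E i _ (hb i).2 a (r i) (e i) (he i) (ha i)
  have k3 : (b + gv (ga L) (gb L) (0, a)).1 i = b.1 i := by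
    rw [Prod.fst_add, Pi.add_apply, gv_fst]
    simp
  have k4 := key_dec _ hq _ hq' (r i) (hr i)
  simp only [pot, Prod.fst_sub, Prod.snd_sub]
  rw [k1, k2, k3]
  exact k4

theorem pot_meas (i : ℕ) : Measurable (pot L i) := by
  have h1 : Measurable (fun b : XX L × XX L => (b.1 i, b.2 i)) :=
    ((measurable_pi_apply i).comp measurable_fst).prodMk ((measurable_pi_apply i).comp measurable_snd)
  have h2 : Measurable (fun z : ZMod (3 * L i) × ZMod (3 * L i) =>
      (((fl L i z.1 : ℕ) : ZMod 9), if fl L i z.1 = 2 then 3 * ((fl L i z.2 : ℕ) : ZMod 9) else 0)) :=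
    measurable_of_finite _
  exact h2.comp h1

theorem add_meas (g : XX L × XX L) : Measurable (fun b : XX L × XX L => b + g) := by
  have h1 : ∀ g : XX L, Measurable (fun x : XX L => x + g) := by
    intro g
    apply measurable_pi_lambda
    intro i
    have h2 : Measurable (fun z : ZMod (3 * L i) => z + g i) := measurable_of_finite _
    exact h2.comp (measurable_pi_apply i)
  exact ((h1 g.1).comp measurable_fst).prodMk ((h1 g.2).comp measurable_snd)

/-- base measure -/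
noncomputable def bm1 : Measure (XX L) := Measure.infinitePi (fun i => unif (ZMod (3 * L i)))

instance bm1_prob : IsProbabilityMeasure (bm1 L) := by
  unfold bm1; infer_instance

theorem bm1_mp (g : XX L) : MeasurePreserving (fun x : XX L => x + g) (bm1 L) (bm1 L) := by
  have hm : Measurable (fun x : XX L => x + g) := by
    apply measurable_pi_lambda
    intro i
    have h2 : Measurable (fun z : ZMod (3 * L i) => z + g i) := measurable_of_finite _
    exact h2.comp (measurable_pi_apply i)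
  refine ⟨hm, ?_⟩
  unfold bm1
  have h := Measure.infinitePi_map_pi (μ := fun i => unif (ZMod (3 * L i)))
    (f := fun i z => z + g i) (fun i => measurable_of_finite _)
  have e : (fun x : XX L => x + g) = (fun (x : ∀ i, ZMod (3 * L i)) i => x i + g i) := rfl
  rw [e, h]
  congr 1
  funext i
  exact unif_map_add _ (g i)

/-- base measure on pairs -/
noncomputable def bm : Measure (XX L × XX L) := (bm1 L).prod (bm1 L)

instance bm_prob : IsProbabilityMeasure (bm L) := by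
  unfold bm; infer_instance

theorem bm_mp (g : XX L × XX L) : MeasurePreserving (fun b : XX L × XX L => b + g) (bm L) (bm L) :=
  (bm1_mp L g.1).prod (bm1_mp L g.2)

theorem bad_card (i : ℕ) [DecidablePred (fun z : ZMod (3 * L i) => ¬ Gd L E i z)] :
    (Finset.univ.filter (fun z : ZMod (3 * L i) => ¬ Gd L E i z)).card ≤ 3 * (2 * i + E i) := by
  have hL : 0 < L i := Nat.pos_of_ne_zero (NeZero.ne (L i))
  have h1 : (Finset.univ.filter (fun z : ZMod (3 * L i) => ¬ Gd L E i z)).card ≤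
      ((Finset.range 3) ×ˢ (Finset.range i ∪ Finset.Ico (L i - E i - i) (L i))).card := by
    apply Finset.card_le_card_of_injOn (fun z => (z.val / L i, z.val % L i))
    · intro z hz
      have hz' : ¬ Gd L E i z := (Finset.mem_filter.1 (Finset.mem_coe.1 hz)).2
      unfold Gd at hz'
      have h2 : z.val % L i < L i := Nat.mod_lt _ hL
      have h3 := fl_lt L i z
      unfold fl at h3
      simp only [Finset.coe_product, Set.mem_prod, Finset.mem_coe, Finset.mem_range,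
        Finset.mem_union, Finset.mem_Ico]
      refine ⟨h3, ?_⟩
      by_cases h4 : i ≤ z.val % L i
      · right
        have h5 : ¬ (z.val % L i + E i + i < L i) := fun h => hz' ⟨h4, h⟩
        omega
      · left; omega
    · intro z _ z' _ h
      have h2 : z.val / L i = z'.val / L i := (Prod.mk.inj h).1
      have h3 : z.val % L i = z'.val % L i := (Prod.mk.inj h).2
      apply ZMod.val_injective
      rw [← Nat.div_add_mod z.val (L i), ← Nat.div_add_mod z'.val (L i), h2, h3]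
  refine h1.trans ?_
  rw [Finset.card_product, Finset.card_range]
  have h2 := Finset.card_union_le (Finset.range i) (Finset.Ico (L i - E i - i) (L i))
  rw [Finset.card_range, Nat.card_Ico] at h2
  have h3 : L i - (L i - E i - i) ≤ E i + i := by omega
  have h4 : (Finset.range i ∪ Finset.Ico (L i - E i - i) (L i)).card ≤ 2 * i + E i := by omega
  exact Nat.mul_le_mul_left 3 h4

theorem bad_meas (i : ℕ) (h : (2 * i + E i) * 2 ^ (i + 7) ≤ L i) :
    unif (ZMod (3 * L i)) {z | ¬ Gd L E i z} ≤ (2⁻¹ : ENNReal) ^ (i + 7) := by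
  classical
  have h1 : {z : ZMod (3 * L i) | ¬ Gd L E i z} =
      ((Finset.univ.filter (fun z : ZMod (3 * L i) => ¬ Gd L E i z) : Finset _) : Set _) := by
    ext z; simp
  rw [h1, unif_apply, ZMod.card]
  have h2 := bad_card L E i
  apply ENNReal.div_le_of_le_mul
  have h3 : (Finset.univ.filter (fun z : ZMod (3 * L i) => ¬ Gd L E i z)).card * 2 ^ (i + 7) ≤ 3 * L i := by
    calc (Finset.univ.filter (fun z : ZMod (3 * L i) => ¬ Gd L E i z)).card * 2 ^ (i + 7)
        ≤ (3 * (2 * i + E i)) * 2 ^ (i + 7) := Nat.mul_le_mul_right _ h2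
      _ = 3 * ((2 * i + E i) * 2 ^ (i + 7)) := by
          rw [Nat.mul_assoc]
      _ ≤ 3 * L i := Nat.mul_le_mul_left 3 h
  have h4 : (((Finset.univ.filter (fun z : ZMod (3 * L i) => ¬ Gd L E i z)).card : ℕ) : ENNReal) *
      2 ^ (i + 7) ≤ ((3 * L i : ℕ) : ENNReal) := by exact_mod_cast h3
  have h5 : (2⁻¹ : ENNReal) ^ (i + 7) * 2 ^ (i + 7) = 1 := by
    rw [← mul_pow, ENNReal.inv_mul_cancel (by norm_num) (by norm_num), one_pow]
  calc (((Finset.univ.filter (fun z : ZMod (3 * L i) => ¬ Gd L E i z)).card : ℕ) : ENNReal)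
      = (2⁻¹ : ENNReal) ^ (i + 7) * ((((Finset.univ.filter (fun z : ZMod (3 * L i) => ¬ Gd L E i z)).card : ℕ) : ENNReal) *
      2 ^ (i + 7)) := by rw [mul_comm _ ((2 : ENNReal) ^ (i + 7)), ← mul_assoc, h5, one_mul]
    _ ≤ (2⁻¹ : ENNReal) ^ (i + 7) * ((3 * L i : ℕ) : ENNReal) := by gcongr

theorem gd_meas (i : ℕ) : MeasurableSet {z : ZMod (3 * L i) | ¬ Gd L E i z} := MeasurableSet.of_discrete

theorem gs_compl : (Gs L E)ᶜ = ⋃ i, ((fun b : XX L × XX L => b.1 i) ⁻¹' {z | ¬ Gd L E i z} ∪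
    (fun b : XX L × XX L => b.2 i) ⁻¹' {z | ¬ Gd L E i z}) := by
  ext b
  simp only [Gs, mem_compl_iff, mem_setOf_eq, mem_iUnion, mem_union, mem_preimage, not_forall,
    not_and_or]

theorem coord_fst (i : ℕ) : MeasurePreserving (fun b : XX L × XX L => b.1 i) (bm L) (unif (ZMod (3 * L i))) :=
  (measurePreserving_eval_infinitePi (fun i => unif (ZMod (3 * L i))) i).comp measurePreserving_fst

theorem coord_snd (i : ℕ) : MeasurePreserving (fun b : XX L × XX L => b.2 i) (bm L) (unif (ZMod (3 * L i))) :=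
  (measurePreserving_eval_infinitePi (fun i => unif (ZMod (3 * L i))) i).comp measurePreserving_snd

theorem gs_measurable : MeasurableSet (Gs L E) := by
  rw [← compl_compl (Gs L E), gs_compl]
  refine (MeasurableSet.iUnion fun i => ?_).compl
  exact ((coord_fst L i).measurable (gd_meas L E i)).union ((coord_snd L i).measurable (gd_meas L E i))

theorem gs_compl_le (h : ∀ i, (2 * i + E i) * 2 ^ (i + 7) ≤ L i) :
    bm L (Gs L E)ᶜ ≤ (2⁻¹ : ENNReal) ^ 5 := by
  rw [gs_compl]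
  refine (measure_iUnion_le _).trans ?_
  calc ∑' i, bm L ((fun b : XX L × XX L => b.1 i) ⁻¹' {z | ¬ Gd L E i z} ∪
        (fun b : XX L × XX L => b.2 i) ⁻¹' {z | ¬ Gd L E i z})
      ≤ ∑' i : ℕ, (2⁻¹ : ENNReal) ^ (i + 6) := by
        apply ENNReal.tsum_le_tsum
        intro i
        refine (measure_union_le _ _).trans ?_
        rw [(coord_fst L i).measure_preimage (gd_meas L E i).nullMeasurableSet,
          (coord_snd L i).measure_preimage (gd_meas L E i).nullMeasurableSet]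
        have h2 := bad_meas L E i (h i)
        calc unif (ZMod (3 * L i)) {z | ¬ Gd L E i z} + unif (ZMod (3 * L i)) {z | ¬ Gd L E i z}
            ≤ (2⁻¹ : ENNReal) ^ (i + 7) + (2⁻¹ : ENNReal) ^ (i + 7) := add_le_add h2 h2
          _ = (2⁻¹ : ENNReal) ^ (i + 6) := by
              rw [pow_succ _ (i + 6), ← mul_add, ENNReal.inv_two_add_inv_two, mul_one]
    _ = (2⁻¹ : ENNReal) ^ 5 := by
        have h3 : ∀ i : ℕ, (2⁻¹ : ENNReal) ^ (i + 6) = (2⁻¹ : ENNReal) ^ (i + 1) * 2⁻¹ ^ 5 :=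
          fun i => by rw [← pow_add]
        simp_rw [h3]
        rw [ENNReal.tsum_mul_right, ENNReal.tsum_geometric_add_one, ENNReal.one_sub_inv_two,
          inv_inv, ENNReal.inv_mul_cancel (by norm_num) (by norm_num), one_mul]

/-- the character of `ZMod 9` -/
noncomputable def e9 (k : ZMod 9) : ℂ := ZMod.stdAddChar k

theorem e9_add (k l : ZMod 9) : e9 (k + l) = e9 k * e9 l := AddChar.map_add_eq_mul _ _ _

theorem e9_norm (k : ZMod 9) : ‖e9 k‖ = 1 := by
  unfold e9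
  rw [ZMod.stdAddChar_apply]
  exact Circle.norm_coe _

theorem e9_nat (n : ℕ) : e9 (n : ZMod 9) = Complex.exp (2 * Real.pi * Complex.I * n / 9) := by
  unfold e9
  have h := ZMod.stdAddChar_coe (N := 9) (n : ℤ)
  push_cast at h
  exact h

end concrete

open Classical in
/-- **The corner system**: a commuting system which sees the weight `e(∑ r_i / 9)`. -/
theorem corner_system (L E : ℕ → ℕ) (hL0 : ∀ i, 0 < L i)
    (hL : ∀ i, (2 * i + E i) * 2 ^ (i + 7) ≤ L i) :
    ∃ (Ω : Type) (_ : MeasurableSpace Ω) (μ : Measure Ω) (_ : IsProbabilityMeasure μ)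
      (T1 T2 : Ω ≃ᵐ Ω) (f0 f1 f2 : Ω → ℂ) (G : Set Ω),
      MeasurePreserving T1 μ μ ∧ MeasurePreserving T2 μ μ ∧ (∀ ω, T1 (T2 ω) = T2 (T1 ω)) ∧
      Measurable f0 ∧ Measurable f1 ∧ Measurable f2 ∧
      (∀ ω, ‖f0 ω‖ ≤ 1) ∧ (∀ ω, ‖f1 ω‖ ≤ 1) ∧ (∀ ω, ‖f2 ω‖ ≤ 1) ∧
      MeasurableSet G ∧ μ Gᶜ ≤ (2⁻¹ : ENNReal) ^ 5 ∧
      ∀ (a : ℤ) (r e : ℕ → ℕ), (∀ i, r i ≤ 1) → (∀ i, e i ≤ E i) →
        (∀ i, ((r i * L i + e i : ℕ) : ℤ) ≡ a [ZMOD (3 * L i : ℕ)]) →
        ∀ n, (∀ i, n ≤ i → r i = 0) →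
        ∀ ω, f0 ω * (f1 (((T1.toEquiv : Equiv.Perm Ω) ^ a) ω) *
            f2 (((T2.toEquiv : Equiv.Perm Ω) ^ a) ω)) =
          G.indicator (fun _ => Complex.exp (2 * Real.pi * Complex.I *
            ((∑ i ∈ Finset.range n, r i : ℕ) : ℂ) / 9)) ω := by
  haveI hLz : ∀ i, NeZero (L i) := fun i => ⟨(hL0 i).ne'⟩
  let Tp : ℤ × ℤ → ((XX L × XX L) × K9) ≃ᵐ ((XX L × XX L) × K9) :=
    Tm (ga L) (gb L) (pot L) (pot_meas L) (add_meas L)
  have hmp : ∀ p, MeasurePreserving (Tp p) ((bm L).prod (unif K9)) ((bm L).prod (unif K9)) := fun p =>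
    Tm_mp (ga L) (gb L) (pot L) (pot_meas L) (add_meas L) p (bm L) (unif K9) (bm_mp L)
      (unif_map_add K9)
  have hf1 : Measurable (fun ω : (XX L × XX L) × K9 => e9 ω.2.1) := by
    have h1 : Measurable (fun k : K9 => e9 k.1) := Measurable.of_discrete
    exact h1.comp measurable_snd
  have hf2 : Measurable (fun ω : (XX L × XX L) × K9 => e9 ω.2.2) := by
    have h1 : Measurable (fun k : K9 => e9 k.2) := Measurable.of_discrete
    exact h1.comp measurable_snd
  have hf3 : Measurable (fun ω : (XX L × XX L) × K9 => e9 (-(ω.2.1 + ω.2.2))) := by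
    have h1 : Measurable (fun k : K9 => e9 (-(k.1 + k.2))) := Measurable.of_discrete
    exact h1.comp measurable_snd
  have hGm : MeasurableSet {ω : (XX L × XX L) × K9 | ω.1 ∈ Gs L E} :=
    measurable_fst (gs_measurable L E)
  refine ⟨(XX L × XX L) × K9, inferInstance, (bm L).prod (unif K9), inferInstance, Tp (1, 0),
    Tp (0, 1), fun ω => {ω : (XX L × XX L) × K9 | ω.1 ∈ Gs L E}.indicator (fun ω => e9 (-(ω.2.1 + ω.2.2))) ω,
    fun ω => e9 ω.2.1, fun ω => e9 ω.2.2, {ω | ω.1 ∈ Gs L E}, hmp _, hmp _, ?_, ?_, hf1, hf2, ?_,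
    ?_, ?_, hGm, ?_, ?_⟩
  · intro ω
    show Tm (ga L) (gb L) (pot L) (pot_meas L) (add_meas L) (1, 0)
      (Tm (ga L) (gb L) (pot L) (pot_meas L) (add_meas L) (0, 1) ω) =
      Tm (ga L) (gb L) (pot L) (pot_meas L) (add_meas L) (0, 1)
      (Tm (ga L) (gb L) (pot L) (pot_meas L) (add_meas L) (1, 0) ω)
    rw [← Tm_add, ← Tm_add, add_comm]
  · exact hf3.indicator hGm
  · intro ω
    show ‖{ω : (XX L × XX L) × K9 | ω.1 ∈ Gs L E}.indicator (fun ω => e9 (-(ω.2.1 + ω.2.2))) ω‖ ≤ 1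
    by_cases h : ω ∈ {ω : (XX L × XX L) × K9 | ω.1 ∈ Gs L E}
    · rw [Set.indicator_of_mem h]
      exact (e9_norm _).le
    · rw [Set.indicator_of_notMem h, norm_zero]
      exact zero_le_one
  · intro ω
    exact (e9_norm _).le
  · intro ω
    exact (e9_norm _).le
  · have h1 : {ω : (XX L × XX L) × K9 | ω.1 ∈ Gs L E}ᶜ = (Gs L E)ᶜ ×ˢ (Set.univ : Set K9) := by
      ext ω; simp
    rw [h1, Measure.prod_prod, measure_univ, mul_one]
    exact gs_compl_le L E hL
  · intro a r e hr he ha n hn ω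
    show {ω : (XX L × XX L) × K9 | ω.1 ∈ Gs L E}.indicator (fun ω => e9 (-(ω.2.1 + ω.2.2))) ω *
      (e9 (((Tp (1, 0)).toEquiv ^ a) ω).2.1 * e9 (((Tp (0, 1)).toEquiv ^ a) ω).2.2) = _
    by_cases hω : ω.1 ∈ Gs L E
    · rw [Set.indicator_of_mem (by exact hω), Set.indicator_of_mem (by exact hω)]
      have h1 : (((Tp (1, 0)).toEquiv : Equiv.Perm ((XX L × XX L) × K9)) ^ a) ω =
          Tm (ga L) (gb L) (pot L) (pot_meas L) (add_meas L) (a, 0) ω := by
        have h2 := Tm_zpow (ga L) (gb L) (pot L) (pot_meas L) (add_meas L) (1, 0) a ω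
        rw [show a • ((1 : ℤ), (0 : ℤ)) = (a, 0) by simp] at h2
        exact h2
      have h1' : (((Tp (0, 1)).toEquiv : Equiv.Perm ((XX L × XX L) × K9)) ^ a) ω =
          Tm (ga L) (gb L) (pot L) (pot_meas L) (add_meas L) (0, a) ω := by
        have h2 := Tm_zpow (ga L) (gb L) (pot L) (pot_meas L) (add_meas L) (0, 1) a ω
        rw [show a • ((0 : ℤ), (1 : ℤ)) = (0, a) by simp] at h2
        exact h2
      rw [h1, h1', Tm_apply, Tm_apply]
      have h3 := cc_key L E ω.1 hω a r e hr he ha n hn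
      rw [← e9_nat, ← h3]
      simp only [Prod.fst_add, Prod.snd_add]
      rw [← e9_add, ← e9_add]
      congr 1
      abel
    · rw [Set.indicator_of_notMem (by exact hω), Set.indicator_of_notMem (by exact hω), zero_mul]

/-! ### the levels of the project -/
open Pool.TC

/-- natural number version of the levels -/
def Ln : ℕ → ℕ
  | 0 => 1
  | (m + 1) => 3 * 4 ^ (m + 10) * (3 * Hw m (Q m) + 2) * Ln m

theorem Ln_cast (m : ℕ) : ((Ln m : ℕ) : ℤ) = Lv m := by
  induction m with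
  | zero => rfl
  | succ m ih =>
    show ((3 * 4 ^ (m + 10) * (3 * Hw m (Q m) + 2) * Ln m : ℕ) : ℤ) =
      3 * 4 ^ (m + 10) * (3 * (Hw m (Q m) : ℤ) + 2) * Lv m
    rw [← ih]
    push_cast
    ring

theorem Ln_pos (m : ℕ) : 0 < Ln m := by
  induction m with
  | zero => exact one_pos
  | succ m ih =>
    show 0 < 3 * 4 ^ (m + 10) * (3 * Hw m (Q m) + 2) * Ln m
    positivity

theorem Ln_dvd_succ (m : ℕ) : 3 * Ln m ∣ Ln (m + 1) := by
  refine ⟨4 ^ (m + 10) * (3 * Hw m (Q m) + 2), ?_⟩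
  show 3 * 4 ^ (m + 10) * (3 * Hw m (Q m) + 2) * Ln m = _
  ring

theorem Ln_dvd {m k : ℕ} (h : m < k) : 3 * Ln m ∣ Ln k := by
  induction k with
  | zero => omega
  | succ k ih =>
    rcases Nat.lt_succ_iff_lt_or_eq.1 h with h1 | h1
    · exact (ih h1).trans ((Dvd.intro_left 3 rfl).trans (Ln_dvd_succ k))
    · subst h1
      exact Ln_dvd_succ m

/-- bound for the lower part -/
def En (i : ℕ) : ℕ := ∑ m ∈ Finset.range i, (3 * Hw m (Q m) + 1) * Ln m

theorem En_succ (i : ℕ) : En (i + 1) = En i + (3 * Hw i (Q i) + 1) * Ln i := by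
  unfold En
  rw [Finset.sum_range_succ]

theorem En_lt (i : ℕ) : En i + 1 ≤ Ln i := by
  induction i with
  | zero => exact le_refl 1
  | succ i ih =>
    rw [En_succ]
    have h1 : Ln (i + 1) = 3 * 4 ^ (i + 10) * ((3 * Hw i (Q i) + 2) * Ln i) := by
      show 3 * 4 ^ (i + 10) * (3 * Hw i (Q i) + 2) * Ln i = _
      ring
    have h2 : 1 ≤ 3 * 4 ^ (i + 10) := Nat.one_le_iff_ne_zero.2 (by positivity)
    rw [h1]
    calc En i + (3 * Hw i (Q i) + 1) * Ln i + 1 = (En i + 1) + (3 * Hw i (Q i) + 1) * Ln i := by ring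
      _ ≤ Ln i + (3 * Hw i (Q i) + 1) * Ln i := Nat.add_le_add_right ih _
      _ = 1 * ((3 * Hw i (Q i) + 2) * Ln i) := by ring
      _ ≤ _ := Nat.mul_le_mul_right _ h2

theorem En_bound (i : ℕ) : (2 * i + En i) * 2 ^ (i + 7) ≤ Ln i := by
  cases i with
  | zero =>
    show (2 * 0 + En 0) * 2 ^ (0 + 7) ≤ 1
    simp [En]
  | succ i =>
    have h1 : Ln (i + 1) = 3 * 4 ^ (i + 10) * ((3 * Hw i (Q i) + 2) * Ln i) := by
      show 3 * 4 ^ (i + 10) * (3 * Hw i (Q i) + 2) * Ln i = _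
      ring
    have h2 : En (i + 1) ≤ (3 * Hw i (Q i) + 2) * Ln i := by
      rw [En_succ]
      have := En_lt i
      calc En i + (3 * Hw i (Q i) + 1) * Ln i ≤ Ln i + (3 * Hw i (Q i) + 1) * Ln i :=
            Nat.add_le_add_right (by omega) _
        _ = _ := by ring
    have h3 : 1 ≤ (3 * Hw i (Q i) + 2) * Ln i :=
      Nat.one_le_iff_ne_zero.2 (by have := Ln_pos i; positivity)
    have h4 : i + 1 ≤ 2 ^ i := Nat.lt_two_pow_self
    rw [h1]
    calc (2 * (i + 1) + En (i + 1)) * 2 ^ (i + 1 + 7)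
        ≤ (2 * 2 ^ i * ((3 * Hw i (Q i) + 2) * Ln i) + (3 * Hw i (Q i) + 2) * Ln i) * 2 ^ (i + 1 + 7) := by
          apply Nat.mul_le_mul_right
          apply Nat.add_le_add _ h2
          calc 2 * (i + 1) ≤ 2 * 2 ^ i := Nat.mul_le_mul_left 2 h4
            _ = 2 * 2 ^ i * 1 := (Nat.mul_one _).symm
            _ ≤ _ := Nat.mul_le_mul_left _ h3
      _ = ((2 * 2 ^ i + 1) * 2 ^ (i + 1 + 7)) * ((3 * Hw i (Q i) + 2) * Ln i) := by ring
      _ ≤ (3 * 4 ^ (i + 10)) * ((3 * Hw i (Q i) + 2) * Ln i) := by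
          apply Nat.mul_le_mul_right
          have h5 : (1 : ℕ) ≤ 2 ^ i := Nat.one_le_two_pow
          have h6 : (4 : ℕ) ^ i = 2 ^ i * 2 ^ i := by
            rw [← mul_pow]
            norm_num
          calc (2 * 2 ^ i + 1) * 2 ^ (i + 1 + 7) ≤ (3 * 2 ^ i) * 2 ^ (i + 1 + 7) :=
                Nat.mul_le_mul_right _ (by omega)
            _ = 3 * 256 * (2 ^ i * 2 ^ i) := by ring
            _ = 3 * 256 * 4 ^ i := by rw [h6]
            _ ≤ 3 * 4 ^ 10 * 4 ^ i := Nat.mul_le_mul_right _ (by norm_num)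
            _ = _ := by ring

/-- the digit as a natural number -/
def dn {N : ℕ} (ω : Om N) (m : Fin N) : ℕ :=
  (if ω.2.1 m then 1 else 0) + 3 * ((ω.2.2 m : ℕ) % Hw m ((ω.1 m : ℕ) + 1))

theorem dn_cast {N : ℕ} (ω : Om N) (m : Fin N) : ((dn ω m : ℕ) : ℤ) = dig ω m := by
  unfold dn dig
  push_cast
  rfl

/-- digits extended by zero -/
def dx {N : ℕ} (ω : Om N) (m : ℕ) : ℕ := if h : m < N then dn ω ⟨m, h⟩ else 0

theorem dx_le {N : ℕ} (ω : Om N) (m : ℕ) : dx ω m ≤ 3 * Hw m (Q m) + 1 := by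
  unfold dx
  split_ifs with h
  · unfold dn
    have h1 : ((ω.2.2 ⟨m, h⟩ : ℕ) % Hw m ((ω.1 ⟨m, h⟩ : ℕ) + 1)) ≤ (ω.2.2 ⟨m, h⟩ : ℕ) := Nat.mod_le _ _
    have h2 := (ω.2.2 ⟨m, h⟩).isLt
    simp only at h2 ⊢
    split_ifs <;> omega
  · omega

/-- the residue bit -/
def rx {N : ℕ} (ω : Om N) (m : ℕ) : ℕ := if h : m < N then (if ω.2.1 ⟨m, h⟩ then 1 else 0) else 0

theorem rx_le {N : ℕ} (ω : Om N) (m : ℕ) : rx ω m ≤ 1 := by
  unfold rx
  split_ifs <;> omega

theorem dx_rx {N : ℕ} (ω : Om N) (m : ℕ) : ∃ t, dx ω m = rx ω m + 3 * t := by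
  unfold dx rx
  split_ifs with h
  · exact ⟨_, by unfold dn; rw [if_pos (by assumption)]⟩
  · exact ⟨_, by unfold dn; rw [if_neg (by assumption)]⟩
  · exact ⟨0, rfl⟩

theorem aval_eq {N : ℕ} (ω : Om N) : aval Lv ω = ((∑ m ∈ Finset.range N, dx ω m * Ln m : ℕ) : ℤ) := by
  unfold aval
  push_cast
  rw [Finset.sum_range]
  apply Finset.sum_congr rfl
  intro m _
  rw [Ln_cast, ← dn_cast]
  congr 2
  unfold dx
  rw [dif_pos m.isLt]

theorem Wd_eq {N : ℕ} (ω : Om N) : Wd ω = ∑ m ∈ Finset.range N, rx ω m := by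
  unfold Wd
  rw [Finset.sum_range]
  apply Finset.sum_congr rfl
  intro m _
  unfold rx
  rw [dif_pos m.isLt]

theorem low_le {N : ℕ} (ω : Om N) (i : ℕ) :
    ∑ m ∈ Finset.range (min i N), dx ω m * Ln m ≤ En i := by
  unfold En
  calc ∑ m ∈ Finset.range (min i N), dx ω m * Ln m
      ≤ ∑ m ∈ Finset.range (min i N), (3 * Hw m (Q m) + 1) * Ln m :=
        Finset.sum_le_sum fun m _ => Nat.mul_le_mul_right _ (dx_le ω m)
    _ ≤ _ := by
        apply Finset.sum_le_sum_of_subset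
        intro m hm
        rw [Finset.mem_range] at hm ⊢
        omega

theorem cong_key {N : ℕ} (ω : Om N) (i : ℕ) :
    ((rx ω i * Ln i + ∑ m ∈ Finset.range (min i N), dx ω m * Ln m : ℕ) : ℤ) ≡ aval Lv ω
      [ZMOD (3 * Ln i : ℕ)] := by
  rw [aval_eq, Int.natCast_modEq_iff]
  by_cases h : i < N
  · rw [min_eq_left h.le]
    have h1 : ∑ m ∈ Finset.range N, dx ω m * Ln m =
        (∑ m ∈ Finset.range i, dx ω m * Ln m) + (dx ω i * Ln i +
          ∑ m ∈ Finset.Ico (i + 1) N, dx ω m * Ln m) := by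
      rw [← Finset.sum_range_add_sum_Ico _ h.le, Finset.sum_eq_sum_Ico_succ_bot h]
    obtain ⟨t, ht⟩ := dx_rx ω i
    have h2 : 3 * Ln i ∣ ∑ m ∈ Finset.Ico (i + 1) N, dx ω m * Ln m := by
      apply Finset.dvd_sum
      intro m hm
      rw [Finset.mem_Ico] at hm
      exact (Ln_dvd (by omega)).mul_left _
    obtain ⟨c, hc⟩ := h2
    rw [h1, hc, ht]
    have h3 : (∑ m ∈ Finset.range i, dx ω m * Ln m) + ((rx ω i + 3 * t) * Ln i + 3 * Ln i * c) =
        (rx ω i * Ln i + ∑ m ∈ Finset.range i, dx ω m * Ln m) + (3 * Ln i) * (t + c) := by ring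
    rw [h3]
    exact (Nat.modEq_iff_dvd' (Nat.le_add_right _ _)).2 (by
      rw [Nat.add_sub_cancel_left]; exact Dvd.intro _ rfl)
  · have h1 : rx ω i = 0 := by
      unfold rx
      rw [dif_neg h]
    rw [h1, min_eq_right (not_lt.1 h), Nat.zero_mul, Nat.zero_add]

/-- CORNER in the form of the interface -/
theorem corner :
    ∃ (X : Type) (_ : MeasurableSpace X) (μ : Measure X) (_ : IsProbabilityMeasure μ)
      (T₁ T₂ : X ≃ᵐ X), MeasurePreserving T₁ μ μ ∧ MeasurePreserving T₂ μ μ ∧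
      (∀ x, T₁ (T₂ x) = T₂ (T₁ x)) ∧
      ∃ f₀ f₁ f₂ : X → ℂ, Measurable f₀ ∧ Measurable f₁ ∧ Measurable f₂ ∧
        (∀ x, ‖f₀ x‖ ≤ 1) ∧ (∀ x, ‖f₁ x‖ ≤ 1) ∧ (∀ x, ‖f₂ x‖ ≤ 1) ∧
        ∀ (N : ℕ) (ω : Om N),
          ‖(∫ x, f₀ x * f₁ (((T₁.toEquiv : Equiv.Perm X) ^ (aval Lv ω)) x) *
              f₂ (((T₂.toEquiv : Equiv.Perm X) ^ (aval Lv ω)) x) ∂μ) - ee (Wd ω / 9)‖ ≤ 1 / 20 := by
  obtain ⟨X, hX, μ, hμ, T1, T2, f0, f1, f2, G, hT1, hT2, hcomm, hf0, hf1, hf2, hb0, hb1, hb2,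
    hG, hGc, hkey⟩ := corner_system Ln En Ln_pos En_bound
  refine ⟨X, hX, μ, hμ, T1, T2, hT1, hT2, hcomm, f0, f1, f2, hf0, hf1, hf2, hb0, hb1, hb2, ?_⟩
  intro N ω
  have h1 : ∀ x, f0 x * f1 (((T1.toEquiv : Equiv.Perm X) ^ (aval Lv ω)) x) *
      f2 (((T2.toEquiv : Equiv.Perm X) ^ (aval Lv ω)) x) =
      G.indicator (fun _ => ee (Wd ω / 9)) x := by
    intro x
    have h2 := hkey (aval Lv ω) (rx ω) (fun i => ∑ m ∈ Finset.range (min i N), dx ω m * Ln m)
      (rx_le ω) (low_le ω) (cong_key ω) N (fun i hi => by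
        unfold rx
        rw [dif_neg (by omega)]) x
    rw [mul_assoc, h2]
    congr 1
    funext _
    unfold ee
    rw [Wd_eq]
    congr 1
    push_cast
    ring
  have h3 : (fun x => f0 x * f1 (((T1.toEquiv : Equiv.Perm X) ^ (aval Lv ω)) x) *
      f2 (((T2.toEquiv : Equiv.Perm X) ^ (aval Lv ω)) x)) = G.indicator (fun _ => ee (Wd ω / 9)) :=
    funext h1
  rw [h3, integral_indicator hG, setIntegral_const]
  have h4 : μ.real G = 1 - μ.real Gᶜ := by
    have := probReal_compl_eq_one_sub (μ := μ) hG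
    linarith
  have h5 : μ.real Gᶜ ≤ 1 / 20 := by
    rw [measureReal_def]
    have h6 : (μ Gᶜ).toReal ≤ ((2⁻¹ : ENNReal) ^ 5).toReal :=
      ENNReal.toReal_mono (by norm_num) hGc
    refine h6.trans ?_
    rw [ENNReal.toReal_pow, ENNReal.toReal_inv]
    norm_num
  have h7 : ‖ee ((Wd ω : ℝ) / 9)‖ = 1 := by
    unfold ee
    have : (2 * (Real.pi : ℂ) * (((Wd ω : ℝ) / 9 : ℝ) : ℂ) * Complex.I) =
      ((2 * Real.pi * ((Wd ω : ℝ) / 9) : ℝ) : ℂ) * Complex.I := by push_cast; ring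
    rw [this, Complex.norm_exp_ofReal_mul_I]
  have h8 : μ.real G • ee ((Wd ω : ℝ) / 9) - ee ((Wd ω : ℝ) / 9) = (-(μ.real Gᶜ)) • ee ((Wd ω : ℝ) / 9) := by
    rw [h4]
    module
  rw [h8, norm_smul, h7, mul_one, norm_neg, Real.norm_eq_abs, abs_of_nonneg measureReal_nonneg]
  exact h5

end Pool.Agent.Helper306.Corner
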