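import Pool.Agent.Helper591.TC.Main0
import Pool.Agent.Helper591.TC.Iface
import Pool.Agent.Helper306.TC.Asm3

/-! # The power side (helper306, MP_e53872_an) -/

open scoped ComplexConjugate InnerProductSpace
open MeasureTheory Filter Topology

set_option autoImplicit false
set_option linter.unusedSectionVars false
set_option linter.style.haveILetI false

namespace Pool.TC.Asm

section power
variable {X : Type} [MeasurableSpace X] {μ : Measure X} [IsProbabilityMeasure μ]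

/-- the product along `n` -/
noncomputable def FF (T : X ≃ᵐ X) (f1 f2 : BM X) (n : ℤ) : BM X :=
  tauBM T n f1 * tauBM T (2 * n) f2

theorem toL_avg {ι : Type} [Fintype ι] (f : ι → BM X) :
    toL μ (avg f) = avg (fun i => toL μ (f i)) := by
  unfold avg
  rw [← map_sum, LinearMap.map_smul_of_tower]

theorem even_cauchy (T : X ≃ᵐ X) (hT : MeasurePreserving T μ μ) (f1 f2 : BM X)
    (h1 : ∀ x, ‖f1.1 x‖ ≤ 1) (h2 : ∀ x, ‖f2.1 x‖ ≤ 1) :
    CauchySeq (fun N : ℕ => avg (fun ω : Om N => toL μ (FF T f1 f2 (aval Lv ω)))) := by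
  rw [Metric.cauchySeq_iff']
  intro ε hε
  letI := psysBM T hT
  have hb1 : f1 ∈ (PSys.ball : Set (BM X)) := by
    show f1 ∈ {f : BM X | ∀ x, ‖f.1 x‖ ≤ 1}
    exact h1
  have hb2 : f2 ∈ (PSys.ball : Set (BM X)) := by
    show f2 ∈ {f : BM X | ∀ x, ‖f.1 x‖ ≤ 1}
    exact h2
  obtain ⟨N0, hN0⟩ := base_cauchy Lv f1 f2 hb1 hb2 (ε / 2) (by positivity)
  refine ⟨N0, fun N hN => ?_⟩
  have h3 := hN0 N hN N0 le_rfl
  rw [← norm_toL T hT, map_sub] at h3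
  have h4 : ∀ N : ℕ, toL μ (baseAvg Lv N f1 f2) = avg (fun ω : Om N => toL μ (FF T f1 f2 (aval Lv ω))) :=
    fun N => toL_avg _
  rw [h4, h4] at h3
  rw [dist_eq_norm]
  linarith

theorem char_part (T : X ≃ᵐ X) (hT : MeasurePreserving T μ μ) (f1 f2 : BM X)
    (h1 : ∀ x, ‖f1.1 x‖ ≤ 1) (h2 : ∀ x, ‖f2.1 x‖ ≤ 1) (j : ℕ) (hj : ¬ 3 ∣ j) :
    Tendsto (fun N : ℕ => avg (fun ω : Om N => ee (j * (Wd ω : ℝ) / 9) • toL μ (FF T f1 f2 (aval Lv ω))))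
      atTop (𝓝 0) := by
  rw [Metric.tendsto_atTop]
  intro ε hε
  letI := psysBM T hT
  have hb1 : f1 ∈ (PSys.ball : Set (BM X)) := by
    show f1 ∈ {f : BM X | ∀ x, ‖f.1 x‖ ≤ 1}
    exact h1
  have hb2 : f2 ∈ (PSys.ball : Set (BM X)) := by
    show f2 ∈ {f : BM X | ∀ x, ‖f.1 x‖ ≤ 1}
    exact h2
  obtain ⟨N0, hN0⟩ := decay Lv f1 f2 hb1 hb2 j hj (ε / 2) (by positivity)
  refine ⟨N0, fun N hN => ?_⟩
  have h3 := hN0 N hN
  rw [← norm_toL T hT, toL_avg] at h3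
  have h4 : (fun ω : Om N => toL μ (ee (j * (Wd ω : ℝ) / 9) • (PSys.tau (aval Lv ω) f1 * PSys.tau (2 * aval Lv ω) f2))) =
      fun ω : Om N => ee (j * (Wd ω : ℝ) / 9) • toL μ (FF T f1 f2 (aval Lv ω)) := by
    funext ω
    exact (toL μ).map_smul _ _
  rw [h4] at h3
  rw [dist_zero_right]
  linarith

theorem avg_smul' {ι : Type} [Fintype ι] {V : Type*} [AddCommGroup V] [Module ℂ V] (c : ℂ) (f : ι → V) :
    avg (fun i => c • f i) = c • avg f := by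
  unfold avg
  rw [← Finset.smul_sum, smul_comm]

theorem psi_part (T : X ≃ᵐ X) (hT : MeasurePreserving T μ μ) (f1 f2 : BM X)
    (h1 : ∀ x, ‖f1.1 x‖ ≤ 1) (h2 : ∀ x, ‖f2.1 x‖ ≤ 1) :
    Tendsto (fun N : ℕ => avg (fun ω : Om N => (psi ω : ℝ) • toL μ (FF T f1 f2 (aval Lv ω))))
      atTop (𝓝 0) := by
  have e : ∀ N : ℕ, avg (fun ω : Om N => (psi ω : ℝ) • toL μ (FF T f1 f2 (aval Lv ω))) =
      ∑ j ∈ Finset.range 9, cj j • avg (fun ω : Om N => ee (j * (Wd ω : ℝ) / 9) •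
        toL μ (FF T f1 f2 (aval Lv ω))) := by
    intro N
    have e1 : (fun ω : Om N => (psi ω : ℝ) • toL μ (FF T f1 f2 (aval Lv ω))) =
        fun ω : Om N => ∑ j ∈ Finset.range 9, cj j • (ee (j * (Wd ω : ℝ) / 9) •
          toL μ (FF T f1 f2 (aval Lv ω))) := by
      funext ω
      have e2 : (psi ω : ℝ) • toL μ (FF T f1 f2 (aval Lv ω)) =
          ((psi ω : ℤ) : ℂ) • toL μ (FF T f1 f2 (aval Lv ω)) := by
        rw [RCLike.real_smul_eq_coe_smul (K := ℂ)]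
        congr 1
      rw [e2, psi_eq, Finset.sum_smul]
      simp only [mul_smul]
    rw [e1, avg_sum']
    apply Finset.sum_congr rfl
    intro j _
    exact avg_smul' _ _
  simp_rw [e]
  have h0 : (0 : Lp ℂ 2 μ) = ∑ j ∈ Finset.range 9, (0 : Lp ℂ 2 μ) := by simp
  rw [h0]
  apply tendsto_finsetSum
  intro j _
  by_cases hj : 3 ∣ j
  · rw [cj_zero hj]
    simp only [zero_smul]
    exact tendsto_const_nhds
  · have := (char_part T hT f1 f2 h1 h2 j hj).const_smul (cj j)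
    rw [smul_zero] at this
    exact this

theorem avg_psi : Tendsto (fun N : ℕ => avg (fun ω : Om N => (psi ω : ℝ))) atTop (𝓝 0) := by
  have h := psi_char 0 (by norm_num)
  rw [if_pos rfl] at h
  have h2 := (Complex.continuous_re.tendsto 0).comp h
  rw [Complex.zero_re] at h2
  refine h2.congr (fun N => ?_)
  show (avg (fun ω : Om N => ((psi ω : ℤ) : ℂ) * ee (((0 : ℕ) : ℝ) * (Wd ω : ℝ) / 9))).re = _
  unfold avg
  rw [Complex.real_smul, Complex.re_ofReal_mul, Complex.re_sum, smul_eq_mul]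
  congr 1
  apply Finset.sum_congr rfl
  intro ω _
  rw [Nat.cast_zero, zero_mul, zero_div, ee_zero, mul_one, Complex.intCast_re]

/-- block averages converge -/
theorem block_lim (T : X ≃ᵐ X) (hT : MeasurePreserving T μ μ) (f1 f2 : BM X)
    (h1 : ∀ x, ‖f1.1 x‖ ≤ 1) (h2 : ∀ x, ‖f2.1 x‖ ≤ 1) :
    ∃ y : Lp ℂ 2 μ, Tendsto (fun j : ℕ => ((lst j).length : ℝ)⁻¹ •
      ((lst j).map (fun n => toL μ (FF T f1 f2 n))).sum) atTop (𝓝 y) := by
  obtain ⟨y, hy⟩ := cauchySeq_tendsto_of_complete (even_cauchy T hT f1 f2 h1 h2)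
  refine ⟨y, tendsto_evenodd _ y ?_ ?_⟩
  · simp_rw [lst_even, blkE_avg]
    exact hy
  · simp_rw [lst_odd, blkO_avg]
    have h3 : Tendsto (fun N : ℕ => (1 + avg (fun ω : Om N => (psi ω : ℝ)))⁻¹) atTop (𝓝 1) := by
      have := (avg_psi.const_add 1).inv₀ (by norm_num)
      simpa using this
    have h4 := h3.smul (hy.add (psi_part T hT f1 f2 h1 h2))
    simpa using h4

theorem toL_le (f : BM X) (hf : ∀ x, ‖f.1 x‖ ≤ 1) : ‖toL μ f‖ ≤ 1 := by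
  have h1 := norm_toL_sq (μ := μ) f
  have h2 : ∫ x, ‖f.1 x‖ ^ 2 ∂μ ≤ ∫ _x : X, (1 : ℝ) ∂μ := by
    apply integral_mono
    · exact (bm_memLp f 2).integrable_norm_pow (by norm_num)
    · exact integrable_const _
    · intro x
      exact pow_le_one₀ (norm_nonneg _) (hf x)
  rw [integral_const, probReal_univ, one_smul] at h2
  rw [← h1] at h2
  nlinarith [norm_nonneg (toL μ f)]

theorem FF_ball (T : X ≃ᵐ X) (f1 f2 : BM X) (h1 : ∀ x, ‖f1.1 x‖ ≤ 1) (h2 : ∀ x, ‖f2.1 x‖ ≤ 1)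
    (n : ℤ) (x : X) : ‖(FF T f1 f2 n).1 x‖ ≤ 1 := by
  show ‖f1.1 _ * f2.1 _‖ ≤ 1
  rw [norm_mul]
  exact mul_le_one₀ (h1 _) (norm_nonneg _) (h2 _)

/-- the conclusion of `seq_exists` for our blocks -/
def IsSeq (a : ℕ → ℤ) : Prop :=
  ∀ (V : Type) [SeminormedAddCommGroup V] [NormedSpace ℝ V] (F : ℤ → V) (C : ℝ),
      (∀ n, ‖F n‖ ≤ C) → ∀ y : V,
      (Tendsto (fun N : ℕ => (N : ℝ)⁻¹ • ∑ n ∈ Finset.Icc 1 N, F (a n)) atTop (𝓝 y) ↔
       Tendsto (fun j : ℕ => ((lst j).length : ℝ)⁻¹ • ((lst j).map F).sum) atTop (𝓝 y))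

theorem power_lim (a : ℕ → ℤ) (ha : IsSeq a) (T : X ≃ᵐ X) (hT : MeasurePreserving T μ μ)
    (f1 f2 : BM X) (h1 : ∀ x, ‖f1.1 x‖ ≤ 1) (h2 : ∀ x, ‖f2.1 x‖ ≤ 1) :
    ∃ y : Lp ℂ 2 μ, Tendsto (fun N : ℕ => (N : ℝ)⁻¹ • ∑ n ∈ Finset.Icc 1 N,
      toL μ (FF T f1 f2 (a n))) atTop (𝓝 y) := by
  obtain ⟨y, hy⟩ := block_lim T hT f1 f2 h1 h2
  exact ⟨y, (ha (Lp ℂ 2 μ) (fun n => toL μ (FF T f1 f2 n)) 1
    (fun n => toL_le _ (FF_ball T f1 f2 h1 h2 n)) y).2 hy⟩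

/-- bounded representatives -/
theorem exists_rep (f : X → ℂ) (hf : MemLp f ⊤ μ) :
    ∃ (C : ℂ) (h : BM X), (∀ x, ‖h.1 x‖ ≤ 1) ∧ f =ᵐ[μ] fun x => C * h.1 x := by
  obtain ⟨f', hf'm, hf'⟩ := hf.1
  have hfm : Measurable f' := hf'm.measurable
  obtain ⟨C, hC⟩ : ∃ C : ℝ, C = max 1 (eLpNormEssSup f μ).toReal := ⟨_, rfl⟩
  have hC1 : 1 ≤ C := by rw [hC]; exact le_max_left _ _
  have hC0 : 0 < C := by linarith
  have hb : ∀ᵐ x ∂μ, ‖f x‖ ≤ C := by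
    have h1 : eLpNormEssSup f μ ≠ ⊤ := by
      have := hf.2
      rw [eLpNorm_exponent_top] at this
      exact this.ne
    filter_upwards [ae_le_eLpNormEssSup (f := f) (μ := μ)] with x hx
    rw [hC]
    refine le_trans ?_ (le_max_right _ _)
    have := ENNReal.toReal_mono h1 hx
    simpa using this
  have hmeas : Measurable (fun x => if ‖f' x‖ ≤ C then ((C⁻¹ : ℝ) : ℂ) * f' x else 0) :=
    Measurable.ite (measurableSet_le hfm.norm measurable_const) (hfm.const_mul _) measurable_const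
  have hbd : ∀ x, ‖(if ‖f' x‖ ≤ C then ((C⁻¹ : ℝ) : ℂ) * f' x else 0)‖ ≤ 1 := by
    intro x
    split_ifs with h
    · rw [norm_mul, Complex.norm_real, Real.norm_eq_abs, abs_of_pos (inv_pos.2 hC0),
        inv_mul_le_iff₀ hC0, mul_one]
      exact h
    · simp
  refine ⟨(C : ℂ), ⟨_, hmeas, 1, hbd⟩, hbd, ?_⟩
  filter_upwards [hb, hf'] with x hx1 hx2
  show f x = (C : ℂ) * (if ‖f' x‖ ≤ C then ((C⁻¹ : ℝ) : ℂ) * f' x else 0)
  rw [← hx2, if_pos hx1]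
  have hCc : (C : ℂ) ≠ 0 := by exact_mod_cast hC0.ne'
  push_cast
  field_simp

theorem good_pow (a : ℕ → ℤ) (ha : IsSeq a) : GoodPow2 a := by
  intro X _ μ _ T hT f1 f2 hf1 hf2
  obtain ⟨C1, h1, hb1, he1⟩ := exists_rep f1 hf1
  obtain ⟨C2, h2, hb2, he2⟩ := exists_rep f2 hf2
  obtain ⟨y, hy⟩ := power_lim a ha T hT h1 h2 hb1 hb2
  refine ⟨fun x => (((C1 * C2) • y : Lp ℂ 2 μ) : X → ℂ) x, Lp.memLp _, ?_⟩
  have hS := hy.const_smul (C1 * C2)
  have hval : ∀ N : ℕ, eLpNorm (fun x => (N : ℂ)⁻¹ * ∑ n ∈ Finset.Icc 1 N,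
          f1 (((T.toEquiv : Equiv.Perm X) ^ (a n)) x) *
            f2 (((T.toEquiv : Equiv.Perm X) ^ (2 * a n)) x) -
            (((C1 * C2) • y : Lp ℂ 2 μ) : X → ℂ) x) 2 μ =
      ENNReal.ofReal ‖(C1 * C2) • ((N : ℝ)⁻¹ • ∑ n ∈ Finset.Icc 1 N, toL μ (FF T h1 h2 (a n))) -
        (C1 * C2) • y‖ := by
    intro N
    have e1 : (fun x => (N : ℂ)⁻¹ * ∑ n ∈ Finset.Icc 1 N,
          f1 (((T.toEquiv : Equiv.Perm X) ^ (a n)) x) *
            f2 (((T.toEquiv : Equiv.Perm X) ^ (2 * a n)) x) -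
            (((C1 * C2) • y : Lp ℂ 2 μ) : X → ℂ) x) =ᵐ[μ]
        (((C1 * C2) • ((N : ℝ)⁻¹ • ∑ n ∈ Finset.Icc 1 N, toL μ (FF T h1 h2 (a n))) -
        (C1 * C2) • y : Lp ℂ 2 μ) : X → ℂ) := by
      have e2 : (toL μ ((C1 * C2) • ((N : ℝ)⁻¹ • ∑ n ∈ Finset.Icc 1 N, FF T h1 h2 (a n))) : Lp ℂ 2 μ) =
          (C1 * C2) • ((N : ℝ)⁻¹ • ∑ n ∈ Finset.Icc 1 N, toL μ (FF T h1 h2 (a n))) := by
        rw [map_smul, LinearMap.map_smul_of_tower, map_sum]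
      rw [← e2]
      have e3 : ∀ n ∈ Finset.Icc 1 N, (fun x => f1 (((T.toEquiv : Equiv.Perm X) ^ (a n)) x) *
            f2 (((T.toEquiv : Equiv.Perm X) ^ (2 * a n)) x)) =ᵐ[μ]
            (fun x => (C1 * C2) * (FF T h1 h2 (a n)).1 x) := by
        intro n _
        have q1 := (perm_mp T hT (a n)).quasiMeasurePreserving.ae_eq_comp he1
        have q2 := (perm_mp T hT (2 * a n)).quasiMeasurePreserving.ae_eq_comp he2
        filter_upwards [q1, q2] with x hx1 hx2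
        simp only [Function.comp_apply] at hx1 hx2
        rw [hx1, hx2]
        show _ = C1 * C2 * (h1.1 (((T.toEquiv : Equiv.Perm X) ^ (a n)) x) *
          h2.1 (((T.toEquiv : Equiv.Perm X) ^ (2 * a n)) x))
        ring
      have e4 : ∀ᵐ x ∂μ, ∀ n ∈ Finset.Icc 1 N, f1 (((T.toEquiv : Equiv.Perm X) ^ (a n)) x) *
            f2 (((T.toEquiv : Equiv.Perm X) ^ (2 * a n)) x) = (C1 * C2) * (FF T h1 h2 (a n)).1 x := by
        rw [ae_all_iff]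
        intro n
        by_cases hn : n ∈ Finset.Icc 1 N
        · filter_upwards [e3 n hn] with x hx _
          exact hx
        · exact Eventually.of_forall fun x h => absurd h hn
      filter_upwards [e4, Lp.coeFn_sub (toL μ ((C1 * C2) • ((N : ℝ)⁻¹ • ∑ n ∈ Finset.Icc 1 N, FF T h1 h2 (a n)))) ((C1 * C2) • y),
        toL_coe (μ := μ) ((C1 * C2) • ((N : ℝ)⁻¹ • ∑ n ∈ Finset.Icc 1 N, FF T h1 h2 (a n)))] with x hx1 hx2 hx3
      rw [hx2, Pi.sub_apply, hx3]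
      congr 1
      have e5 : ((C1 * C2) • ((N : ℝ)⁻¹ • ∑ n ∈ Finset.Icc 1 N, FF T h1 h2 (a n)) : BM X).1 x =
          (C1 * C2) * ((N : ℝ)⁻¹ • ∑ n ∈ Finset.Icc 1 N, (FF T h1 h2 (a n)).1 x) := by
        have e6 : ((∑ n ∈ Finset.Icc 1 N, FF T h1 h2 (a n) : BM X)).1 x =
            ∑ n ∈ Finset.Icc 1 N, (FF T h1 h2 (a n)).1 x := by
          have h5 : ((∑ n ∈ Finset.Icc 1 N, FF T h1 h2 (a n) : BM X)).1 =
            ∑ n ∈ Finset.Icc 1 N, (FF T h1 h2 (a n)).1 := map_sum (BM X).subtype _ _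
          rw [h5, Finset.sum_apply]
        rw [← e6]
        rfl
      rw [e5, Finset.sum_congr rfl hx1, ← Finset.mul_sum, Complex.real_smul]
      push_cast
      ring
    rw [eLpNorm_congr_ae e1]
    rw [Lp.norm_def, ENNReal.ofReal_toReal (Lp.eLpNorm_ne_top _)]
  simp_rw [hval]
  have h3 := (tendsto_iff_norm_sub_tendsto_zero.1 hS)
  have h4 := ENNReal.tendsto_ofReal h3
  rw [ENNReal.ofReal_zero] at h4
  exact h4

end power

end Pool.TC.Asm
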