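import Pool.Agent.Helper591.TC.Main0
import Pool.Agent.Helper306.TC.Asm4

/-! # The commuting side and the final statement (helper306, MP_e53872_an) -/

open scoped ComplexConjugate InnerProductSpace
open MeasureTheory Filter Topology

set_option autoImplicit false
set_option linter.unusedSectionVars false
set_option linter.style.haveILetI false

namespace Pool.TC.Asm

theorem avg_norm_le' {ι : Type} [Fintype ι] (f : ι → ℂ) : ‖avg f‖ ≤ avg (fun i => ‖f i‖) := by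
  unfold avg
  rw [norm_smul, Real.norm_eq_abs, abs_of_nonneg (by positivity), smul_eq_mul]
  exact mul_le_mul_of_nonneg_left (norm_sum_le _ _) (by positivity)

theorem avg_mono' {ι : Type} [Fintype ι] {f g : ι → ℝ} (h : ∀ i, f i ≤ g i) : avg f ≤ avg g := by
  unfold avg
  rw [smul_eq_mul, smul_eq_mul]
  exact mul_le_mul_of_nonneg_left (Finset.sum_le_sum fun i _ => h i) (by positivity)

theorem avg_const' {ι : Type} [Fintype ι] [Nonempty ι] (c : ℝ) : avg (fun _ : ι => c) = c := by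
  unfold avg
  have h : (Fintype.card ι : ℝ) ≠ 0 := by
    have : 0 < Fintype.card ι := Fintype.card_pos
    exact_mod_cast this.ne'
  rw [Finset.sum_const, Finset.card_univ, nsmul_eq_mul, smul_eq_mul, ← mul_assoc,
    inv_mul_cancel₀ h, one_mul]

theorem avg_sub' {ι : Type} [Fintype ι] {V : Type*} [AddCommGroup V] [Module ℝ V] (f g : ι → V) :
    avg (fun i => f i - g i) = avg f - avg g := by
  unfold avg
  rw [Finset.sum_sub_distrib, smul_sub]

theorem cj8 : 1 / 10 < ‖cj 8‖ := by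
  unfold cj
  rw [norm_div]
  have h1 : (1 - ee (-(((8 : ℕ) : ℝ) / 3))).re = 3 / 2 := by
    rw [Complex.sub_re, Complex.one_re]
    have h2 : ee (-(((8 : ℕ) : ℝ) / 3)) = ee ((1 : ℝ) / 3) := by
      have h3 : ((1 : ℝ) / 3) = ((3 : ℤ) : ℝ) + (-(((8 : ℕ) : ℝ) / 3)) := by norm_num
      rw [h3, ee_add, ee_int, one_mul]
    rw [h2]
    unfold ee
    have h4 : (2 * (Real.pi : ℂ) * (((1 : ℝ) / 3 : ℝ) : ℂ) * Complex.I) =
        ((2 * (Real.pi / 3) : ℝ) : ℂ) * Complex.I := by push_cast; ring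
    rw [h4, Complex.exp_ofReal_mul_I_re, Real.cos_two_mul, Real.cos_pi_div_three]
    norm_num
  have h5 := Complex.abs_re_le_norm (1 - ee (-(((8 : ℕ) : ℝ) / 3)))
  rw [h1] at h5
  have h6 : ‖(9 : ℂ)‖ = 9 := by norm_num
  rw [h6]
  have h7 : |(3 : ℝ) / 2| = 3 / 2 := abs_of_pos (by norm_num)
  rw [h7] at h5
  linarith

theorem comm_conv {X : Type} [MeasurableSpace X] {μ : Measure X} [IsProbabilityMeasure μ]
    (T₁ T₂ : X ≃ᵐ X) (f₀ f₁ f₂ : X → ℂ) (hm0 : Measurable f₀) (hm1 : Measurable f₁)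
    (hm2 : Measurable f₂) (hb0 : ∀ x, ‖f₀ x‖ ≤ 1) (hb1 : ∀ x, ‖f₁ x‖ ≤ 1) (hb2 : ∀ x, ‖f₂ x‖ ≤ 1)
    (a : ℕ → ℤ) (g : X → ℂ) (hg : MemLp g 2 μ)
    (hlim : Tendsto (fun N : ℕ => eLpNorm (fun x => (N : ℂ)⁻¹ * ∑ n ∈ Finset.Icc 1 N,
          f₁ (((T₁.toEquiv : Equiv.Perm X) ^ (a n)) x) *
            f₂ (((T₂.toEquiv : Equiv.Perm X) ^ (a n)) x) - g x) 2 μ) atTop (𝓝 0)) :
    Tendsto (fun N : ℕ => (N : ℝ)⁻¹ • ∑ n ∈ Finset.Icc 1 N,
      ∫ x, f₀ x * f₁ (((T₁.toEquiv : Equiv.Perm X) ^ (a n)) x) *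
              f₂ (((T₂.toEquiv : Equiv.Perm X) ^ (a n)) x) ∂μ) atTop (𝓝 (∫ x, f₀ x * g x ∂μ)) := by
  have hterm : ∀ k : ℤ, Measurable (fun x => f₁ (((T₁.toEquiv : Equiv.Perm X) ^ k) x) *
            f₂ (((T₂.toEquiv : Equiv.Perm X) ^ k) x)) := fun k =>
    (hm1.comp (perm_meas T₁ k)).mul (hm2.comp (perm_meas T₂ k))
  have htermb : ∀ (k : ℤ) (x : X), ‖f₁ (((T₁.toEquiv : Equiv.Perm X) ^ k) x) *
            f₂ (((T₂.toEquiv : Equiv.Perm X) ^ k) x)‖ ≤ 1 := fun k x => by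
    rw [norm_mul]
    exact mul_le_one₀ (hb1 _) (norm_nonneg _) (hb2 _)
  have hterml : ∀ k : ℤ, MemLp (fun x => f₁ (((T₁.toEquiv : Equiv.Perm X) ^ k) x) *
            f₂ (((T₂.toEquiv : Equiv.Perm X) ^ k) x)) 2 μ := fun k =>
    MemLp.of_bound (hterm k).aestronglyMeasurable 1 (Eventually.of_forall (htermb k))
  have hmem : ∀ N : ℕ, MemLp (fun x => (N : ℂ)⁻¹ * ∑ n ∈ Finset.Icc 1 N,
          f₁ (((T₁.toEquiv : Equiv.Perm X) ^ (a n)) x) *
            f₂ (((T₂.toEquiv : Equiv.Perm X) ^ (a n)) x)) 2 μ := by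
    intro N
    apply MemLp.const_mul
    exact memLp_finsetSum _ (fun n _ => hterml (a n))
  have hint : ∀ u : X → ℂ, MemLp u 2 μ → Integrable (fun x => f₀ x * u x) μ := by
    intro u hu
    have h1 : Integrable u μ := hu.integrable (by norm_num)
    exact h1.bdd_mul hm0.aestronglyMeasurable (Eventually.of_forall hb0)
  have hval : ∀ N : ℕ, (N : ℝ)⁻¹ • ∑ n ∈ Finset.Icc 1 N,
      ∫ x, f₀ x * f₁ (((T₁.toEquiv : Equiv.Perm X) ^ (a n)) x) *
              f₂ (((T₂.toEquiv : Equiv.Perm X) ^ (a n)) x) ∂μ =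
      ∫ x, f₀ x * ((N : ℂ)⁻¹ * ∑ n ∈ Finset.Icc 1 N,
          f₁ (((T₁.toEquiv : Equiv.Perm X) ^ (a n)) x) *
            f₂ (((T₂.toEquiv : Equiv.Perm X) ^ (a n)) x)) ∂μ := by
    intro N
    have e1 : ∀ x, f₀ x * ((N : ℂ)⁻¹ * ∑ n ∈ Finset.Icc 1 N,
          f₁ (((T₁.toEquiv : Equiv.Perm X) ^ (a n)) x) *
            f₂ (((T₂.toEquiv : Equiv.Perm X) ^ (a n)) x)) =
        (N : ℂ)⁻¹ * ∑ n ∈ Finset.Icc 1 N, f₀ x * f₁ (((T₁.toEquiv : Equiv.Perm X) ^ (a n)) x) *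
              f₂ (((T₂.toEquiv : Equiv.Perm X) ^ (a n)) x) := by
      intro x
      rw [Finset.mul_sum, Finset.mul_sum, Finset.mul_sum]
      apply Finset.sum_congr rfl
      intro n _
      ring
    simp_rw [e1]
    rw [integral_const_mul, integral_finsetSum]
    · rw [Complex.real_smul]
      push_cast
      rfl
    · intro n _
      have := hint _ (hterml (a n))
      simp_rw [← mul_assoc] at this
      exact this
  simp_rw [hval]
  rw [tendsto_iff_norm_sub_tendsto_zero]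
  have hle : ∀ N : ℕ, ‖(∫ x, f₀ x * ((N : ℂ)⁻¹ * ∑ n ∈ Finset.Icc 1 N,
          f₁ (((T₁.toEquiv : Equiv.Perm X) ^ (a n)) x) *
            f₂ (((T₂.toEquiv : Equiv.Perm X) ^ (a n)) x)) ∂μ) - ∫ x, f₀ x * g x ∂μ‖ ≤
      (eLpNorm (fun x => (N : ℂ)⁻¹ * ∑ n ∈ Finset.Icc 1 N,
          f₁ (((T₁.toEquiv : Equiv.Perm X) ^ (a n)) x) *
            f₂ (((T₂.toEquiv : Equiv.Perm X) ^ (a n)) x) - g x) 2 μ).toReal := by
    intro N
    obtain ⟨u, hu⟩ : ∃ u : X → ℂ, u = fun x => (N : ℂ)⁻¹ * ∑ n ∈ Finset.Icc 1 N,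
          f₁ (((T₁.toEquiv : Equiv.Perm X) ^ (a n)) x) *
            f₂ (((T₂.toEquiv : Equiv.Perm X) ^ (a n)) x) := ⟨_, rfl⟩
    have hul : MemLp u 2 μ := by rw [hu]; exact hmem N
    have e2 : ∀ x, (N : ℂ)⁻¹ * ∑ n ∈ Finset.Icc 1 N,
          f₁ (((T₁.toEquiv : Equiv.Perm X) ^ (a n)) x) *
            f₂ (((T₂.toEquiv : Equiv.Perm X) ^ (a n)) x) = u x := fun x => by rw [hu]
    simp_rw [e2]
    have hsub : MemLp (fun x => u x - g x) 2 μ := hul.sub hg
    rw [← integral_sub (hint _ hul) (hint _ hg)]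
    have h3 : (fun x => f₀ x * u x - f₀ x * g x) = fun x => f₀ x * (u x - g x) := by
      funext x; ring
    rw [h3]
    refine (norm_integral_le_lintegral_norm _).trans ?_
    apply ENNReal.toReal_mono hsub.eLpNorm_ne_top
    calc ∫⁻ x, ENNReal.ofReal ‖f₀ x * (u x - g x)‖ ∂μ
        ≤ ∫⁻ x, ‖u x - g x‖ₑ ∂μ := by
          apply lintegral_mono
          intro x
          dsimp only
          rw [← ofReal_norm]
          apply ENNReal.ofReal_le_ofReal
          rw [norm_mul]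
          exact (mul_le_mul_of_nonneg_right (hb0 x) (norm_nonneg _)).trans (one_mul _).le
      _ = eLpNorm (fun x => u x - g x) 1 μ := by
          rw [eLpNorm_one_eq_lintegral_enorm]
      _ ≤ _ := eLpNorm_le_eLpNorm_of_exponent_le (by norm_num) hsub.aestronglyMeasurable
  have h0 := (ENNReal.continuousAt_toReal ENNReal.zero_ne_top).tendsto.comp hlim
  rw [ENNReal.toReal_zero] at h0
  exact squeeze_zero (fun _ => norm_nonneg _) hle h0

theorem not_comm (a : ℕ → ℤ) (ha : IsSeq a) : ¬ GoodComm2 a := by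
  intro hG
  obtain ⟨X, hX, μ, hμ, T₁, T₂, hT₁, hT₂, hcomm, f₀, f₁, f₂, hm0, hm1, hm2, hb0, hb1, hb2, hkey⟩ := corner
  obtain ⟨g, hg, hlim⟩ := hG X μ T₁ T₂ hT₁ hT₂ hcomm f₁ f₂
    (memLp_top_of_bound hm1.aestronglyMeasurable 1 (Eventually.of_forall hb1))
    (memLp_top_of_bound hm2.aestronglyMeasurable 1 (Eventually.of_forall hb2))
  have h1 := comm_conv T₁ T₂ f₀ f₁ f₂ hm0 hm1 hm2 hb0 hb1 hb2 a g hg hlim
  obtain ⟨G, hGdef⟩ : ∃ G : ℤ → ℂ, G = fun k => ∫ x, f₀ x * f₁ (((T₁.toEquiv : Equiv.Perm X) ^ k) x) *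
              f₂ (((T₂.toEquiv : Equiv.Perm X) ^ k) x) ∂μ := ⟨_, rfl⟩
  obtain ⟨c, hc⟩ : ∃ c : ℂ, c = ∫ x, f₀ x * g x ∂μ := ⟨_, rfl⟩
  rw [← hc] at h1
  have hGb : ∀ k, ‖G k‖ ≤ 1 := by
    intro k
    rw [hGdef]
    refine (norm_integral_le_of_norm_le_const (C := 1) (Eventually.of_forall fun x => ?_)).trans ?_
    · rw [norm_mul, norm_mul]
      exact mul_le_one₀ (mul_le_one₀ (hb0 _) (norm_nonneg _) (hb1 _)) (norm_nonneg _) (hb2 _)
    · simp
  have h2 : Tendsto (fun N : ℕ => (N : ℝ)⁻¹ • ∑ n ∈ Finset.Icc 1 N, G (a n)) atTop (𝓝 c) := by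
    rw [hGdef]; exact h1
  have h3 := (ha ℂ G 1 hGb c).1 h2
  have hk : ∀ (N : ℕ) (ω : Om N), ‖G (aval Lv ω) - ee ((Wd ω : ℝ) / 9)‖ ≤ 1 / 20 := by
    intro N ω
    rw [hGdef]
    exact hkey N ω
  -- even blocks
  have hE : Tendsto (fun N : ℕ => avg (fun ω : Om N => G (aval Lv ω))) atTop (𝓝 c) := by
    have h5 : Tendsto (fun N : ℕ => 2 * N) atTop atTop :=
      tendsto_atTop_mono (fun N => by simp only [id_eq]; omega) tendsto_id
    have h4 := h3.comp h5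
    refine h4.congr (fun N => ?_)
    simp only [Function.comp_apply]
    rw [lst_even, blkE_avg]
  have hO : Tendsto (fun N : ℕ => (1 + avg (fun ω : Om N => (psi ω : ℝ)))⁻¹ •
      (avg (fun ω : Om N => G (aval Lv ω)) + avg (fun ω : Om N => (psi ω : ℝ) • G (aval Lv ω))))
      atTop (𝓝 c) := by
    have h5 : Tendsto (fun N : ℕ => 2 * N + 1) atTop atTop :=
      tendsto_atTop_mono (fun N => by simp only [id_eq]; omega) tendsto_id
    have h4 := h3.comp h5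
    refine h4.congr (fun N => ?_)
    simp only [Function.comp_apply]
    rw [lst_odd, blkO_avg]
  have hch : Tendsto (fun N : ℕ => avg (fun ω : Om N => ee ((Wd ω : ℝ) / 9))) atTop (𝓝 0) := by
    have := char_tendsto 1 (by norm_num)
    refine this.congr (fun N => ?_)
    simp
  have hpc : Tendsto (fun N : ℕ => avg (fun ω : Om N => (psi ω : ℝ) • ee ((Wd ω : ℝ) / 9))) atTop
      (𝓝 (cj 8)) := by
    have := psi_char 1 (by norm_num)
    rw [if_neg (by norm_num)] at this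
    refine this.congr (fun N => ?_)
    congr 1
    funext ω
    rw [Complex.real_smul]
    push_cast
    rw [one_mul]
  have hc1 : ‖c‖ ≤ 1 / 20 := by
    have h5 := (hE.sub hch).norm
    rw [sub_zero] at h5
    refine le_of_tendsto' h5 (fun N => ?_)
    rw [← avg_sub']
    refine (avg_norm_le' _).trans ?_
    refine (avg_mono' (fun ω => hk N ω)).trans ?_
    rw [avg_const']
  have hc2 : ‖c - cj 8‖ ≤ 1 / 20 := by
    have h6 : Tendsto (fun N : ℕ => (1 + avg (fun ω : Om N => (psi ω : ℝ)))⁻¹) atTop (𝓝 1) := by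
      have := (avg_psi.const_add 1).inv₀ (by norm_num)
      simpa using this
    have h7 : Tendsto (fun N : ℕ => (1 + avg (fun ω : Om N => (psi ω : ℝ)))⁻¹ •
      (avg (fun ω : Om N => ee ((Wd ω : ℝ) / 9)) + avg (fun ω : Om N => (psi ω : ℝ) • ee ((Wd ω : ℝ) / 9))))
      atTop (𝓝 (cj 8)) := by
      have := h6.smul (hch.add hpc)
      simpa using this
    have h8 := (hO.sub h7).norm
    refine le_of_tendsto' h8 (fun N => ?_)
    have h9 : (1 + avg (fun ω : Om N => (psi ω : ℝ))) = avg (fun ω : Om N => 1 + (psi ω : ℝ)) := by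
      rw [avg_add', avg_const']
    have h10 : 0 < (1 + avg (fun ω : Om N => (psi ω : ℝ))) := by
      rw [h9]
      have := blkO_len_pos N
      rw [blkO_len] at this
      unfold avg
      rw [smul_eq_mul]
      exact mul_pos (inv_pos.2 (om_card_pos N)) this
    rw [← smul_sub, norm_smul, Real.norm_eq_abs, abs_of_pos (inv_pos.2 h10), inv_mul_le_iff₀ h10]
    have h11 : (avg (fun ω : Om N => G (aval Lv ω)) + avg (fun ω : Om N => (psi ω : ℝ) • G (aval Lv ω))) -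
        (avg (fun ω : Om N => ee ((Wd ω : ℝ) / 9)) + avg (fun ω : Om N => (psi ω : ℝ) • ee ((Wd ω : ℝ) / 9))) =
        avg (fun ω : Om N => (1 + (psi ω : ℝ)) • (G (aval Lv ω) - ee ((Wd ω : ℝ) / 9))) := by
      rw [← avg_add', ← avg_add', ← avg_sub']
      congr 1
      funext ω
      module
    rw [h11, h9]
    refine (avg_norm_le' _).trans ?_
    have h12 : avg (fun ω : Om N => 1 + (psi ω : ℝ)) * (1 / 20) = avg (fun ω : Om N => (1 + (psi ω : ℝ)) * (1 / 20)) := by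
      unfold avg
      rw [← Finset.sum_mul, smul_eq_mul, smul_eq_mul, mul_assoc]
    rw [h12]
    apply avg_mono'
    intro ω
    have h13 : (0 : ℝ) ≤ 1 + psi ω := by
      have := (psi_bd ω).1
      have h2 : (-1 : ℝ) ≤ psi ω := by exact_mod_cast this
      linarith
    rw [norm_smul, Real.norm_eq_abs, abs_of_nonneg h13]
    exact mul_le_mul_of_nonneg_left (hk N ω) h13
  have h14 := cj8
  have h15 : ‖cj 8‖ ≤ ‖c‖ + ‖c - cj 8‖ := by
    have : cj 8 = c - (c - cj 8) := by ring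
    calc ‖cj 8‖ = ‖c - (c - cj 8)‖ := by rw [← this]
      _ ≤ _ := norm_sub_le _ _
  linarith

/-- FINAL -/
theorem result : ∃ a : ℕ → ℤ, GoodPow2 a ∧ ¬ GoodComm2 a := by
  obtain ⟨a, ha⟩ := seq_exists lst lst_ne
  exact ⟨a, good_pow a ha, not_comm a ha⟩

end Pool.TC.Asm
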